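import Mathlib

set_option autoImplicit false
set_option linter.unusedSectionVars false
set_option linter.unusedVariables false

namespace Pool.Agent.N58.Sz

variable (G Ω : Type) [Group G] [MulAction G Ω] [Fintype Ω]

/-- sum functional -/
def sumf : (Ω → ℂ) →ₗ[ℂ] ℂ where
  toFun f := ∑ x, f x
  map_add' f g := by simp [Finset.sum_add_distrib]
  map_smul' c f := by simp [Finset.mul_sum]

omit [MulAction G Ω] in
theorem sumf_apply (f : Ω → ℂ) : sumf Ω f = ∑ x, f x := rfl

/-- permutation representation on functions -/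
def perm : Representation ℂ G (Ω → ℂ) where
  toFun g :=
    { toFun := fun f x => f (g⁻¹ • x)
      map_add' := fun _ _ => rfl
      map_smul' := fun _ _ => rfl }
  map_one' := by
    ext1 f
    funext x
    simp
  map_mul' g h := by
    refine LinearMap.ext fun f => funext fun x => ?_
    simp [mul_smul]

theorem perm_apply (g : G) (f : Ω → ℂ) (x : Ω) : perm G Ω g f x = f (g⁻¹ • x) := rfl

theorem sumf_perm (g : G) (f : Ω → ℂ) : sumf Ω (perm G Ω g f) = sumf Ω f := by
  rw [sumf_apply, sumf_apply]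
  exact Equiv.sum_comp (MulAction.toPerm g⁻¹) f

/-- the augmentation representation -/
def aug : Representation ℂ G (LinearMap.ker (sumf Ω)) where
  toFun g := (perm G Ω g).restrict (fun f hf => by
    rw [LinearMap.mem_ker] at hf ⊢
    rw [sumf_perm, hf])
  map_one' := by
    refine LinearMap.ext fun f => Subtype.ext ?_
    show perm G Ω 1 f.1 = f.1
    rw [map_one]; rfl
  map_mul' g h := by
    refine LinearMap.ext fun f => Subtype.ext ?_
    show perm G Ω (g * h) f.1 = perm G Ω g (perm G Ω h f.1)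
    rw [map_mul]; rfl

theorem aug_val (g : G) (f : LinearMap.ker (sumf Ω)) : (aug G Ω g f : Ω → ℂ) = perm G Ω g f.1 := rfl

open Classical in
theorem trace_perm (g : G) :
    LinearMap.trace ℂ (Ω → ℂ) (perm G Ω g) = (Nat.card {x : Ω // g • x = x} : ℂ) := by
  rw [LinearMap.trace_eq_matrix_trace ℂ (Pi.basisFun ℂ Ω), Matrix.trace]
  simp only [Matrix.diag, LinearMap.toMatrix_apply, Pi.basisFun_repr, Pi.basisFun_apply,
    perm_apply]
  rw [Nat.card_eq_fintype_card, Fintype.card_subtype, Finset.card_filter]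
  push_cast
  refine Finset.sum_congr rfl fun x _ => ?_
  rw [Pi.single_apply]
  congr 1
  rw [inv_smul_eq_iff]
  exact propext eq_comm

variable [Nonempty Ω]

/-- averaging projector -/
noncomputable def avg : (Ω → ℂ) →ₗ[ℂ] (Ω → ℂ) where
  toFun f := fun _ => (Fintype.card Ω : ℂ)⁻¹ * ∑ x, f x
  map_add' f g := by
    funext x
    simp [Finset.sum_add_distrib, mul_add]
  map_smul' c f := by
    funext x
    simp [Finset.mul_sum]
    refine Finset.sum_congr rfl fun x _ => ?_
    ring

open Classical in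
theorem trace_avg : LinearMap.trace ℂ (Ω → ℂ) (avg Ω) = 1 := by
  rw [LinearMap.trace_eq_matrix_trace ℂ (Pi.basisFun ℂ Ω), Matrix.trace]
  simp only [Matrix.diag, LinearMap.toMatrix_apply, Pi.basisFun_repr, Pi.basisFun_apply, avg,
    LinearMap.coe_mk, AddHom.coe_mk]
  simp [Pi.single_apply]

/-- projection to the sum zero space -/
noncomputable def prj : (Ω → ℂ) →ₗ[ℂ] (LinearMap.ker (sumf Ω)) :=
  LinearMap.codRestrict _ (LinearMap.id - avg Ω) (fun f => by
    rw [LinearMap.mem_ker, sumf_apply]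
    simp [avg])

theorem prj_val (f : Ω → ℂ) : (prj Ω f : Ω → ℂ) = f - avg Ω f := rfl

theorem aug_char (g : G) :
    (aug G Ω).character g = (Nat.card {x : Ω // g • x = x} : ℂ) - 1 := by
  have e1 : aug G Ω g = prj Ω ∘ₗ ((perm G Ω g) ∘ₗ (LinearMap.ker (sumf Ω)).subtype) := by
    refine LinearMap.ext fun f => Subtype.ext ?_
    show perm G Ω g f.1 = perm G Ω g f.1 - avg Ω (perm G Ω g f.1)
    have : avg Ω (perm G Ω g f.1) = 0 := by
      funext x
      show (Fintype.card Ω : ℂ)⁻¹ * (sumf Ω (perm G Ω g f.1)) = 0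
      rw [sumf_perm, LinearMap.mem_ker.1 f.2, mul_zero]
    rw [this, sub_zero]
  have e2 : ((perm G Ω g) ∘ₗ (LinearMap.ker (sumf Ω)).subtype) ∘ₗ prj Ω =
      perm G Ω g - avg Ω := by
    refine LinearMap.ext fun f => ?_
    show perm G Ω g (f - avg Ω f) = perm G Ω g f - avg Ω f
    rw [map_sub]
    rfl
  unfold Representation.character
  rw [e1, LinearMap.trace_comp_comm', e2, map_sub, trace_perm, trace_avg]

theorem finrank_aug : Module.finrank ℂ (LinearMap.ker (sumf Ω)) + 1 = Fintype.card Ω := by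
  have h := LinearMap.finrank_range_add_finrank_ker (sumf Ω)
  have h2 : LinearMap.range (sumf Ω) = ⊤ := by
    rw [LinearMap.range_eq_top]
    intro c
    obtain ⟨x0⟩ := (inferInstance : Nonempty Ω)
    classical
    refine ⟨Pi.single x0 c, ?_⟩
    rw [sumf_apply]
    simp
  rw [h2, finrank_top, Module.finrank_self, Module.finrank_fintype_fun_eq_card] at h
  omega

omit [Nonempty Ω] in
open Classical in
theorem aug_irred [Finite G] (x0 : Ω) (h1 : ∀ x : Ω, ∃ g : G, g • x0 = x)
    (h2 : ∀ x y : Ω, x ≠ x0 → y ≠ x0 → ∃ g : G, g • x0 = x0 ∧ g • x = y)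
    (x1 : Ω) (hx1 : x1 ≠ x0) : (aug G Ω).IsIrreducible := by
  have : Fintype G := Fintype.ofFinite G
  have hcard : (Fintype.card Ω : ℂ) ≠ 0 := by
    have : Nonempty Ω := ⟨x0⟩
    exact_mod_cast Fintype.card_ne_zero
  -- the vectors spanning
  have hspan : ∀ (W : Subrepresentation (aug G Ω)), W ≠ ⊥ → W = ⊤ := by
    intro W hW
    obtain ⟨f, hfW, hf0⟩ : ∃ f ∈ W.toSubmodule, f ≠ 0 := by
      by_contra hcon
      push Not at hcon
      apply hW
      apply Subrepresentation.toSubmodule_injective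
      show W.toSubmodule = ⊥
      rw [eq_bot_iff]
      intro f hf
      exact (Submodule.mem_bot _).2 (hcon f hf)
    obtain ⟨x, hx⟩ : ∃ x, f.1 x ≠ 0 := by
      by_contra hcon
      push Not at hcon
      exact hf0 (Subtype.ext (funext hcon))
    obtain ⟨g, hg⟩ := h1 x
    set f1 := aug G Ω g⁻¹ f with hf1
    have hf1W : f1 ∈ W.toSubmodule := W.apply_mem_toSubmodule g⁻¹ hfW
    have hf1x : f1.1 x0 ≠ 0 := by
      rw [hf1, aug_val, perm_apply, inv_inv, hg]
      exact hx
    let St := MulAction.stabilizer G x0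
    let f2 : LinearMap.ker (sumf Ω) := ∑ h : St, aug G Ω (h : G) f1
    have hf2W : f2 ∈ W.toSubmodule := Submodule.sum_mem _ fun h _ =>
      W.apply_mem_toSubmodule _ hf1W
    have hf2v : ∀ y, f2.1 y = ∑ h : St, f1.1 ((h : G)⁻¹ • y) := by
      intro y
      show ((∑ h : St, aug G Ω (h : G) f1 : LinearMap.ker (sumf Ω)) : Ω → ℂ) y = _
      rw [Submodule.coe_sum, Finset.sum_apply]
      rfl
    have hf2x : f2.1 x0 = (Fintype.card St : ℂ) * f1.1 x0 := by
      rw [hf2v]
      have : ∀ h : St, f1.1 ((h : G)⁻¹ • x0) = f1.1 x0 := by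
        intro h
        have h5 : (h : G) • x0 = x0 := h.2
        rw [inv_smul_eq_iff.2 h5.symm]
      simp [this]
    have hf2inv : ∀ (k : St) y, f2.1 ((k : G) • y) = f2.1 y := by
      intro k y
      rw [hf2v, hf2v]
      refine Fintype.sum_equiv (Equiv.mulLeft k⁻¹) _ _ fun h => ?_
      simp [mul_smul]
    have hf2x0 : f2.1 x0 ≠ 0 := by
      rw [hf2x]
      refine mul_ne_zero ?_ hf1x
      exact_mod_cast Fintype.card_ne_zero
    have hconst : ∀ y, y ≠ x0 → f2.1 y = f2.1 x1 := by
      intro y hy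
      obtain ⟨k, hk, hk2⟩ := h2 x1 y hx1 hy
      rw [← hk2]
      exact hf2inv ⟨k, hk⟩ x1
    set c := f2.1 x1 with hc
    have hf2form : ∀ y, f2.1 y = c + (f2.1 x0 - c) * (if y = x0 then 1 else 0) := by
      intro y
      by_cases hy : y = x0
      · rw [if_pos hy, hy]; ring
      · rw [if_neg hy, hconst y hy]; ring
    have hsum : (Fintype.card Ω : ℂ) * c + (f2.1 x0 - c) = 0 := by
      have h5 := f2.2
      rw [LinearMap.mem_ker, sumf_apply] at h5
      rw [Finset.sum_congr rfl (fun y _ => hf2form y), Finset.sum_add_distrib, ← Finset.mul_sum] at h5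
      simpa using h5
    have hd : f2.1 x0 - c ≠ 0 := by
      intro h
      rw [h, add_zero] at hsum
      have hc0 : c = 0 := (mul_eq_zero.1 hsum).resolve_left hcard
      rw [hc0, sub_zero] at h
      exact hf2x0 h
    rw [eq_top_iff]
    intro v _
    -- every element is a combination of translates
    choose tr htr using h1
    have hv : v = ∑ y, ((f2.1 x0 - c)⁻¹ * v.1 y) • aug G Ω (tr y) f2 := by
      apply Subtype.ext
      funext z
      rw [Submodule.coe_sum, Finset.sum_apply]
      have h6 : ∀ y, (((f2.1 x0 - c)⁻¹ * v.1 y) • aug G Ω (tr y) f2 : LinearMap.ker (sumf Ω)).1 z =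
          (f2.1 x0 - c)⁻¹ * v.1 y * c + v.1 y * (if y = z then 1 else 0) := by
        intro y
        show ((f2.1 x0 - c)⁻¹ * v.1 y) * f2.1 ((tr y)⁻¹ • z) = _
        rw [hf2form ((tr y)⁻¹ • z)]
        have h7 : ((tr y)⁻¹ • z = x0) ↔ (y = z) := by
          rw [inv_smul_eq_iff, htr, eq_comm]
        rw [if_congr h7 rfl rfl]
        split_ifs
        · field_simp
        · ring
      rw [Finset.sum_congr rfl (fun y _ => h6 y), Finset.sum_add_distrib]
      have h8 : ∑ y, (f2.1 x0 - c)⁻¹ * v.1 y * c = 0 := by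
        have h9 := v.2
        rw [LinearMap.mem_ker, sumf_apply] at h9
        rw [← Finset.sum_mul, ← Finset.mul_sum, h9]
        ring
      rw [h8]
      simp
    rw [hv]
    exact Submodule.sum_mem _ fun y _ => Submodule.smul_mem _ _ (W.apply_mem_toSubmodule _ hf2W)
  have hnt : (⊥ : Subrepresentation (aug G Ω)) ≠ ⊤ := by
    intro h
    have h3 : (⊥ : Submodule ℂ (LinearMap.ker (sumf Ω))) = ⊤ := congrArg Subrepresentation.toSubmodule h
    let v : LinearMap.ker (sumf Ω) := ⟨fun y => (if y = x0 then 1 else 0) - (if y = x1 then 1 else 0), by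
      rw [LinearMap.mem_ker, sumf_apply, Finset.sum_sub_distrib]
      simp⟩
    have h4 : v ∈ (⊥ : Submodule ℂ (LinearMap.ker (sumf Ω))) := by rw [h3]; trivial
    have h5 : v = 0 := (Submodule.mem_bot _).1 h4
    have h6 : v.1 x0 = 0 := by rw [h5]; rfl
    have h7 : v.1 x0 = 1 := by
      show (if x0 = x0 then (1:ℂ) else 0) - (if x0 = x1 then 1 else 0) = 1
      rw [if_pos rfl, if_neg (Ne.symm hx1), sub_zero]
    rw [h7] at h6
    exact one_ne_zero h6
  have : Nontrivial (Subrepresentation (aug G Ω)) := ⟨⟨⊥, ⊤, hnt⟩⟩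
  exact { eq_bot_or_eq_top := fun W => or_iff_not_imp_left.2 (hspan W) }

end Pool.Agent.N58.Sz
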