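import Pool.Agent.N58.Sz.Grp

set_option autoImplicit false
set_option linter.unusedSectionVars false
set_option linter.unusedVariables false

namespace Pool.Agent.N58.Sz

variable {F : Type} [Field F] [Q29 F]

variable (F) in
/-- The Borel subgroup. -/
def BB : Subgroup (S F) where
  carrier := {s | ∃ a b v, s = su a b * sh v}
  one_mem' := ⟨0, 0, 1, by rw [su_zero, sh_one, mul_one]⟩
  mul_mem' := by
    rintro _ _ ⟨a, b, v, rfl⟩ ⟨a', b', v', rfl⟩
    have : su a b * sh v * (su a' b' * sh v') = su a b * (sh v * su a' b') * sh v' := by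
      simp only [mul_assoc]
    rw [this, sh_su, ← mul_assoc, su_mul, mul_assoc _ (sh v), sh_mul]
    exact ⟨_, _, _, rfl⟩
  inv_mem' := by
    rintro _ ⟨a, b, v, rfl⟩
    rw [mul_inv_rev, su_inv, sh_inv, sh_su]
    exact ⟨_, _, _, rfl⟩

theorem mem_BB {s : S F} : s ∈ BB F ↔ ∃ a b v, s = su a b * sh v := Iff.rfl

theorem su_mem (a b : F) : su a b ∈ BB F := ⟨a, b, 1, by rw [sh_one, mul_one]⟩
theorem sh_mem (v : Fˣ) : sh v ∈ BB F := ⟨0, 0, v, by rw [su_zero, one_mul]⟩

theorem not_mem_BB {a b c d : F} {v : Fˣ} : su a b * sh v * sw * su c d ∉ BB F := by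
  rintro ⟨a', b', v', h⟩
  exact s12 h.symm

theorem card_BB : Nat.card (BB F) = 2 ^ 58 * (2 ^ 29 - 1) := by
  have e : Function.Bijective
      (fun x : F × F × Fˣ => (⟨su x.1 x.2.1 * sh x.2.2, ⟨_, _, _, rfl⟩⟩ : BB F)) := by
    constructor
    · rintro ⟨a, b, v⟩ ⟨a', b', v'⟩ h
      obtain ⟨h1, h2, h3⟩ := s1_inj (congrArg Subtype.val h)
      simp only at h1 h2 h3
      rw [h1, h2, h3]
    · rintro ⟨s, a, b, v, rfl⟩
      exact ⟨(a, b, v), rfl⟩
  rw [← Nat.card_congr (Equiv.ofBijective _ e)]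
  simp only [Nat.card_prod, card_units, Q29.card]
  norm_num

theorem index_BB : (BB F).index = 2 ^ 58 + 1 := by
  have h := Subgroup.card_mul_index (BB F)
  rw [card_BB, card_S] at h
  have : 0 < 2 ^ 58 * (2 ^ 29 - 1) := by norm_num
  exact Nat.eq_of_mul_eq_mul_left this h

theorem sw_mul_sh' (v : Fˣ) : sw * sh v⁻¹ = sh v * sw := by rw [sw_sh, inv_inv]

/-- every element outside the Borel subgroup is conjugate, inside it, to some `sw * su c d`. -/
theorem decomp {x : S F} (hx : x ∉ BB F) :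
    ∃ b ∈ BB F, ∃ c d, x = b * (sw * su c d) * b⁻¹ := by
  rcases s_cases x with ⟨a, b, v, rfl⟩ | ⟨a, b, v, c, d, rfl⟩
  · exact absurd ⟨a, b, v, rfl⟩ hx
  · obtain ⟨t, ht⟩ := exists_sq (v : F)
    have ht0 : t ≠ 0 := by
      rintro rfl
      exact v.ne_zero (by rw [← ht]; simp)
    have hv : Units.mk0 t ht0 * Units.mk0 t ht0 = v := Units.ext (by
      simp [← sq, ht])
    set T := Units.mk0 t ht0
    refine ⟨su a b * sh T, ⟨_, _, _, rfl⟩, ?_⟩
    have e1 : su c d * su a b * sh T = sh T * ((sh T)⁻¹ * (su c d * su a b) * sh T) := by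
      simp only [mul_assoc, mul_inv_cancel_left]
    have e2 : ∃ c' d', (sh T)⁻¹ * (su c d * su a b) * sh T = su c' d' := by
      rw [su_mul, mul_assoc, su_sh, inv_mul_cancel_left]
      exact ⟨_, _, rfl⟩
    obtain ⟨c', d', e3⟩ := e2
    refine ⟨c', d', ?_⟩
    rw [← e3, mul_inv_rev]
    have e4 : su a b * sh T * (sw * ((sh T)⁻¹ * (su c d * su a b) * sh T)) * ((sh T)⁻¹ * (su a b)⁻¹)
        = su a b * sh T * (sw * sh T⁻¹) * su c d := by
      rw [← sh_inv]
      group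
    rw [e4, sw_mul_sh', ← hv, ← sh_mul]
    simp only [mul_assoc]

theorem units_sq_eq_one {v : Fˣ} (h : v = v⁻¹) : v = 1 := by
  have h1 : v * v = 1 := by
    nth_rewrite 2 [h]
    exact mul_inv_cancel v
  have h2 : (v : F) ^ 2 = 1 := by
    rw [sq, ← Units.val_mul, h1, Units.val_one]
  exact Units.ext (sq_eq_one h2)

theorem cent_w {x : S F} (hx : x ∈ BB F) {c d c' d' : F}
    (h : x * (sw * su c d) = (sw * su c' d') * x) : x = 1 := by
  obtain ⟨a, b, v, rfl⟩ := hx
  have e1 : su a b * sh v * (sw * su c d) = su a b * sh v * sw * su c d := by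
    simp only [mul_assoc]
  have e2 : ∃ c'' d'', sw * su c' d' * (su a b * sh v) = su 0 0 * sh v⁻¹ * sw * su c'' d'' := by
    rw [su_zero, one_mul, mul_assoc, ← mul_assoc (su c' d'), su_mul, su_sh, ← mul_assoc, sw_sh]
    exact ⟨_, _, rfl⟩
  obtain ⟨c'', d'', e3⟩ := e2
  rw [e1, e3] at h
  obtain ⟨h1, h2, h3, h4, h5⟩ := s2_inj h
  rw [h1, h2, units_sq_eq_one h3, su_zero, sh_one, mul_one]

/-- no nonidentity element of the Borel subgroup commutes with an element outside it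
  all of whose... -/
theorem cent_BB {x b : S F} (hx : x ∉ BB F) (hb : b ∈ BB F) (h : b * x = x * b) : b = 1 := by
  obtain ⟨b0, hb0, c, d, rfl⟩ := decomp hx
  have h1 : (b0⁻¹ * b * b0) * (sw * su c d) = (sw * su c d) * (b0⁻¹ * b * b0) := by
    have := congrArg (fun y => b0⁻¹ * y * b0) h
    simp only [mul_assoc, inv_mul_cancel_left, inv_mul_cancel, mul_one] at this ⊢
    exact this
  have h2 := cent_w (mul_mem (mul_mem (inv_mem hb0) hb) hb0) h1
  have h3 : b = b0 * (b0⁻¹ * b * b0) * b0⁻¹ := by group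
  rw [h3, h2]
  group

/-- the element is conjugate to no element of the Borel subgroup -/
def Fpf (s : S F) : Prop := ∀ g : S F, g * s * g⁻¹ ∉ BB F

theorem Fpf.conj {s : S F} (h : Fpf s) (k : S F) : Fpf (k * s * k⁻¹) := by
  intro g hg
  apply h (g * k)
  convert hg using 1
  group

theorem Fpf.not_mem {s : S F} (h : Fpf s) : s ∉ BB F := by
  have := h 1
  simpa using this

/-- elements of prime order not dividing `q^2+1` are conjugate into the Borel subgroup. -/
theorem prime_conj {c : S F} {p : ℕ} (hp : p.Prime) (hc : orderOf c = p)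
    (hd : ¬ p ∣ 2 ^ 58 + 1) : ∃ g : S F, g * c * g⁻¹ ∈ BB F := by
  have : Fact p.Prime := ⟨hp⟩
  have hcard : Nat.card (Subgroup.zpowers c) = p ^ 1 := by rw [Nat.card_zpowers, hc, pow_one]
  have hP : IsPGroup p (Subgroup.zpowers c) := IsPGroup.of_card hcard
  have hcard2 : ¬ p ∣ Nat.card (S F ⧸ BB F) := by
    have : Nat.card (S F ⧸ BB F) = 2 ^ 58 + 1 := index_BB
    rw [this]
    exact hd
  obtain ⟨x, hx⟩ := hP.nonempty_fixed_point_of_prime_not_dvd_card (S F ⧸ BB F) hcard2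
  obtain ⟨g, rfl⟩ := QuotientGroup.mk_surjective x
  have h1 := hx ⟨c, Subgroup.mem_zpowers c⟩
  have h2 : ((c * g : S F) : S F ⧸ BB F) = (g : S F ⧸ BB F) := h1
  rw [eq_comm, QuotientGroup.eq] at h2
  refine ⟨g⁻¹, ?_⟩
  rw [inv_inv]
  rwa [← mul_assoc] at h2

/-- centralizers of fixed point free elements have order dividing `q^2+1`. -/
theorem card_cent_dvd {s : S F} (hs : Fpf s) :
    Nat.card (Subgroup.centralizer {s}) ∣ 2 ^ 58 + 1 := by
  have h1 : Nat.card (Subgroup.centralizer {s}) ∣ 2 ^ 58 * (2 ^ 29 - 1) * (2 ^ 58 + 1) := by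
    rw [← card_S (F := F)]
    exact Subgroup.card_subgroup_dvd_card _
  refine Nat.Coprime.dvd_of_dvd_mul_left ?_ h1
  rw [Nat.coprime_iff_gcd_eq_one]
  by_contra hne
  obtain ⟨p, hp, hpd⟩ := Nat.exists_prime_and_dvd hne
  have hp1 : p ∣ Nat.card (Subgroup.centralizer {s}) := hpd.trans (Nat.gcd_dvd_left _ _)
  have hp2 : p ∣ 2 ^ 58 * (2 ^ 29 - 1) := hpd.trans (Nat.gcd_dvd_right _ _)
  have hp3 : ¬ p ∣ 2 ^ 58 + 1 := by
    intro h
    have : p ∣ Nat.gcd (2 ^ 58 * (2 ^ 29 - 1)) (2 ^ 58 + 1) := Nat.dvd_gcd hp2 h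
    have e : Nat.gcd (2 ^ 58 * (2 ^ 29 - 1)) (2 ^ 58 + 1) = 1 := by norm_num
    rw [e] at this
    exact hp.one_lt.ne' (Nat.dvd_one.1 this)
  have : Fact p.Prime := ⟨hp⟩
  obtain ⟨c, hc⟩ := exists_prime_orderOf_dvd_card' p hp1
  have hc' : orderOf (c : S F) = p := by rw [← hc]; exact Subgroup.orderOf_coe c
  obtain ⟨g, hg⟩ := prime_conj hp hc' hp3
  have hcom : (c : S F) * s = s * c := by
    have := Subgroup.mem_centralizer_iff.1 c.2 s rfl
    exact this.symm
  have h4 : g * c * g⁻¹ = 1 := by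
    apply cent_BB (hs g) hg
    have : g * (c * s) * g⁻¹ = g * (s * c) * g⁻¹ := by rw [hcom]
    calc g * ↑c * g⁻¹ * (g * s * g⁻¹) = g * (c * s) * g⁻¹ := by group
      _ = g * (s * c) * g⁻¹ := this
      _ = _ := by group
  have h5 : (c : S F) = 1 := by
    have := congrArg (fun y => g⁻¹ * y * g) h4
    simpa [mul_assoc] using this
  rw [h5, orderOf_one] at hc'
  exact hp.one_lt.ne hc'

end Pool.Agent.N58.Sz
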