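import Pool.Agent.N58.Sz.Cls

set_option autoImplicit false
set_option linter.unusedSectionVars false
set_option linter.unusedVariables false

namespace Pool.Agent.N58.Sz

variable {F : Type} [Field F] [Q29 F]

theorem th_ne_one {v : F} (h : v ≠ 1) : th v ≠ 1 := fun h' => h (th_inj (by rw [h', th_one]))

theorem thsq_ne_one {v : F} (hv : v ≠ 0) (h : v ≠ 1) : th v * v ^ 2 ≠ 1 := by
  intro h'
  have h1 : th (v * th v) = 1 := by rw [th_mul, th_th, h']
  have h2 : v * th v = 1 := th_inj (by rw [h1, th_one])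
  have h3 : v * th v = 1 * th 1 := by rw [h2, th_one, one_mul]
  exact h (multh_inj hv one_ne_zero h3)

theorem val_ne_one {v : Fˣ} (h : v ≠ 1) : (v : F) ≠ 1 := fun h' => h (Units.ext h')

/-- if `sh v` normalizes/centralizes... fixed unipotents are trivial -/
theorem u_fix {v : Fˣ} (hv : v ≠ 1) {a b : F}
    (h : su ((th (v : F))⁻¹ * a) ((th (v : F) * (v : F) ^ 2)⁻¹ * b) = su a b) : a = 0 ∧ b = 0 := by
  have h' : su ((th (v : F))⁻¹ * a) ((th (v : F) * (v : F) ^ 2)⁻¹ * b) * sh 1 = su a b * sh 1 := by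
    rw [h]
  obtain ⟨h1, h2, -⟩ := s1_inj h'
  have e1 := th_ne_zero v.ne_zero
  have e2 := th_ne_one (val_ne_one hv)
  have e3 := thsq_ne_one v.ne_zero (val_ne_one hv)
  have e4 := v.ne_zero
  constructor
  · by_contra ha
    apply e2
    field_simp at h1
    exact h1.symm
  · by_contra hb
    apply e3
    field_simp at h2
    exact h2.symm

theorem HH {v v' : Fˣ} (hv : v ≠ 1) {k : S F} (h : k * sh v = sh v' * k) :
    ∃ t, (k = sh t ∧ v' = v) ∨ (k = sh t * sw ∧ v' = v⁻¹) := by
  rcases s_cases k with ⟨a, b, t, rfl⟩ | ⟨a, b, t, c, d, rfl⟩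
  · rw [← mul_assoc (sh v'), sh_su, mul_assoc, mul_assoc, sh_mul, sh_mul] at h
    obtain ⟨h1, h2, h3⟩ := s1_inj h
    have h4 : v' = v := by
      rw [mul_comm] at h3
      exact (mul_right_cancel h3).symm
    refine ⟨t, Or.inl ⟨?_, h4⟩⟩
    obtain ⟨h5, h6⟩ := u_fix hv (a := a) (b := b) (by rw [← h4, ← h1, ← h2])
    rw [h5, h6, su_zero, one_mul]
  · have e1 : su a b * sh t * sw * su c d * sh v =
        su a b * sh (t * v⁻¹) * sw * su (th (v : F) * c) (th (v : F) * (v : F) ^ 2 * d) := by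
      calc su a b * sh t * sw * su c d * sh v
          = su a b * sh t * sw * (su c d * sh v) := by simp only [mul_assoc]
        _ = su a b * sh t * (sw * sh v) * su (th (v : F) * c) (th (v : F) * (v : F) ^ 2 * d) := by
            rw [su_sh v c d]; simp only [mul_assoc]
        _ = _ := by rw [sw_sh, ← sh_mul]; simp only [mul_assoc]
    have e2 : sh v' * (su a b * sh t * sw * su c d) =
        su ((th (v' : F))⁻¹ * a) ((th (v' : F) * (v' : F) ^ 2)⁻¹ * b) * sh (v' * t) * sw * su c d := by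
      calc sh v' * (su a b * sh t * sw * su c d) = (sh v' * su a b) * sh t * sw * su c d := by
            simp only [mul_assoc]
        _ = _ := by rw [sh_su, ← sh_mul]; simp only [mul_assoc]
    rw [e1, e2] at h
    obtain ⟨h1, h2, h3, h4, h5⟩ := s2_inj h
    have h6 : v' = v⁻¹ := by
      rw [mul_comm] at h3
      exact (mul_right_cancel h3).symm
    have hv' : v' ≠ 1 := by
      rw [h6]
      intro h7
      exact hv (inv_eq_one.1 h7)
    refine ⟨t, Or.inr ⟨?_, h6⟩⟩
    obtain ⟨h7, h8⟩ := u_fix hv' (a := a) (b := b) (by rw [← h1, ← h2])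
    have e3 := th_ne_one (val_ne_one hv)
    have e4 := thsq_ne_one v.ne_zero (val_ne_one hv)
    have hc : c = 0 := by
      have : (th (v : F) - 1) * c = 0 := by linear_combination h4
      rcases mul_eq_zero.1 this with h | h
      · exact absurd (sub_eq_zero.1 h) e3
      · exact h
    have hd : d = 0 := by
      have : (th (v : F) * (v : F) ^ 2 - 1) * d = 0 := by linear_combination h5
      rcases mul_eq_zero.1 this with h | h
      · exact absurd (sub_eq_zero.1 h) e4
      · exact h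
    rw [h7, h8, hc, hd, su_zero, one_mul, mul_one]

variable (F) in
/-- elements conjugate to nonidentity diagonal elements -/
def XH : Set (S F) := {x | ∃ (g : S F) (v : Fˣ), v ≠ 1 ∧ x = g * sh v * g⁻¹}

theorem card_XH : (2 ^ 29 - 2) * Nat.card (S F) ≤ 2 * (2 ^ 29 - 1) * Nat.card (XH F) := by
  have hch : ∀ y : XH F, ∃ (p : S F × Fˣ), p.2 ≠ 1 ∧ (y : S F) = p.1 * sh p.2 * p.1⁻¹ := by
    rintro ⟨y, g, v, h1, h2⟩
    exact ⟨(g, v), h1, h2⟩
  choose f hf1 hf2 using hch
  let Ψ : (XH F) × (Fˣ × Bool) → S F × {v : Fˣ // v ≠ 1} := fun z =>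
    if z.2.2 then ((f z.1).1 * (sh z.2.1)⁻¹, ⟨(f z.1).2, hf1 z.1⟩)
    else ((f z.1).1 * (sh z.2.1 * sw)⁻¹, ⟨(f z.1).2⁻¹, fun h => hf1 z.1 (inv_eq_one.1 h)⟩)
  have hsurj : Function.Surjective Ψ := by
    rintro ⟨g, ⟨v, hv⟩⟩
    let y : XH F := ⟨g * sh v * g⁻¹, g, v, hv, rfl⟩
    have h2 := hf2 y
    have h3 : (g⁻¹ * (f y).1) * sh (f y).2 = sh v * (g⁻¹ * (f y).1) := by
      have : (f y).1 * sh (f y).2 * (f y).1⁻¹ = g * sh v * g⁻¹ := h2.symm
      calc (g⁻¹ * (f y).1) * sh (f y).2 = g⁻¹ * ((f y).1 * sh (f y).2 * (f y).1⁻¹) * (f y).1 := by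
            group
        _ = g⁻¹ * (g * sh v * g⁻¹) * (f y).1 := by rw [this]
        _ = _ := by group
    obtain ⟨t, ⟨h4, h5⟩ | ⟨h4, h5⟩⟩ := HH (hf1 y) h3
    · refine ⟨(y, (t, true)), ?_⟩
      simp only [Ψ, if_true]
      refine Prod.ext ?_ (Subtype.ext h5.symm)
      show (f y).1 * (sh t)⁻¹ = g
      rw [← h4]; group
    · refine ⟨(y, (t, false)), ?_⟩
      simp only [Ψ, Bool.false_eq_true, if_false]
      refine Prod.ext ?_ (Subtype.ext h5.symm)
      show (f y).1 * (sh t * sw)⁻¹ = g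
      rw [← h4]; group
  have h := Nat.card_le_card_of_surjective Ψ hsurj
  have e1 : Nat.card {v : Fˣ // v ≠ 1} = 2 ^ 29 - 2 := by
    have : Fintype Fˣ := Fintype.ofFinite _
    classical
    have h2 : Fintype.card Fˣ = 2 ^ 29 - 1 := by rw [← Nat.card_eq_fintype_card, card_units]
    rw [Nat.card_eq_fintype_card]
    have := Fintype.card_subtype_compl (fun v : Fˣ => v = 1)
    rw [this, h2, Fintype.card_subtype_eq]
    norm_num
  rw [Nat.card_prod, Nat.card_prod, Nat.card_prod, e1, card_units, Nat.card_eq_fintype_card (α := Bool),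
    Fintype.card_bool] at h
  calc (2 ^ 29 - 2) * Nat.card (S F) = Nat.card (S F) * (2 ^ 29 - 2) := mul_comm _ _
    _ ≤ Nat.card (XH F) * ((2 ^ 29 - 1) * 2) := h
    _ = _ := by ring

/-- every unipotent element is conjugate to one of four representatives. -/
theorem utype : ∃ c0 : F, ∀ a b : F, ∃ g : S F,
    g * su a b * g⁻¹ = 1 ∨ g * su a b * g⁻¹ = su 0 1 ∨ g * su a b * g⁻¹ = su 1 0 ∨
      g * su a b * g⁻¹ = su 1 c0 := by
  classical
  let f : F →+ F := { toFun := fun x => x + th x, map_zero' := by rw [th_zero, add_zero],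
                      map_add' := fun x y => by rw [th_add]; ring }
  have hker : ∀ x, f x = 0 ↔ x = 0 ∨ x = 1 := by
    intro x
    constructor
    · intro h
      have h1 : x + th x = 0 := h
      apply th_fix
      have h2 := add_self x
      linear_combination h1 - h2
    · rintro (rfl | rfl)
      · exact map_zero f
      · show (1 : F) + th 1 = 0
        rw [th_one]; exact add_self 1
  have hk : Nat.card f.ker = 2 := by
    have : (f.ker : Set F) = {0, 1} := by
      ext x
      simp only [SetLike.mem_coe, AddMonoidHom.mem_ker, hker]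
      rfl
    have h2 : Nat.card (f.ker : Set F) = 2 := by
      rw [this, Nat.card_coe_set_eq, Set.ncard_pair (by exact zero_ne_one)]
    exact h2
  have hidx : f.range.index = 2 := by
    have h1 := AddSubgroup.index_ker f
    have h2 := AddSubgroup.card_mul_index f.ker
    have h3 := AddSubgroup.card_mul_index f.range
    rw [hk, h1, Q29.card (F := F)] at h2
    rw [Q29.card (F := F)] at h3
    have h4 : Nat.card f.range = 2 ^ 28 := by omega
    rw [h4] at h3
    omega
  obtain ⟨c0, hc0⟩ := AddSubgroup.index_eq_two_iff.1 hidx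
  refine ⟨c0, fun a b => ?_⟩
  by_cases ha : a = 0
  · subst ha
    by_cases hb : b = 0
    · subst hb
      exact ⟨1, Or.inl (by rw [su_zero]; group)⟩
    · obtain ⟨β, hβ⟩ := th_surj b⁻¹
      have hβ0 : β ≠ 0 := by
        rintro rfl
        rw [th_zero] at hβ
        exact inv_ne_zero hb hβ.symm
      obtain ⟨y, hy, hy2⟩ := multh_surj hβ0
      refine ⟨(sh (Units.mk0 y hy))⁻¹, Or.inr (Or.inl ?_)⟩
      rw [inv_inv, mul_assoc, su_sh, inv_mul_cancel_left]
      congr 1
      · simp
      · have : th y * y ^ 2 = b⁻¹ := by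
          rw [← hβ, ← hy2, th_mul, th_th]
        show th y * y ^ 2 * b = 1
        rw [this, inv_mul_cancel₀ hb]
  · obtain ⟨y, hy⟩ := th_surj a⁻¹
    have hy0 : y ≠ 0 := by
      rintro rfl
      rw [th_zero] at hy
      exact inv_ne_zero ha hy.symm
    have e1 : ∃ b', (sh (Units.mk0 y hy0))⁻¹ * su a b * sh (Units.mk0 y hy0) = su 1 b' := by
      refine ⟨th y * y ^ 2 * b, ?_⟩
      rw [mul_assoc, su_sh, inv_mul_cancel_left]
      congr 1
      show th y * a = 1
      rw [hy, inv_mul_cancel₀ ha]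
    obtain ⟨b', hb'⟩ := e1
    have key : ∀ x : F, su x 0 * su 1 b' * (su x 0)⁻¹ = su 1 (b' + (x + th x)) := by
      intro x
      rw [mul_inv_eq_iff_eq_mul, su_mul, su_mul, th_one]
      congr 1
      · ring
      · have := add_self (th x)
        linear_combination -this
    have fin : ∀ x : F, su x 0 * (sh (Units.mk0 y hy0))⁻¹ * su a b *
        (su x 0 * (sh (Units.mk0 y hy0))⁻¹)⁻¹ = su 1 (b' + (x + th x)) := by
      intro x
      rw [← key x, ← hb']
      group
    have h5 := hc0 b'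
    by_cases hb : b' ∈ f.range
    · obtain ⟨x, hx⟩ := hb
      have hx' : x + th x = b' := hx
      refine ⟨_, Or.inr (Or.inr (Or.inl ((fin x).trans ?_)))⟩
      rw [hx', add_self]
    · have h6 : b' + c0 ∈ f.range := by
        rcases h5 with h | h
        · exact h.1
        · exact absurd h.1 hb
      obtain ⟨x, hx⟩ := h6
      have hx' : x + th x = b' + c0 := hx
      refine ⟨_, Or.inr (Or.inr (Or.inr ((fin x).trans ?_)))⟩
      rw [hx', ← add_assoc, add_self, zero_add]

/-- elements of the Borel subgroup: unipotent or conjugate to a diagonal element -/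
theorem btype {x : S F} (hx : x ∈ BB F) :
    (∃ a b, x = su a b) ∨ ∃ (g : S F) (v : Fˣ), v ≠ 1 ∧ g * x * g⁻¹ = sh v := by
  obtain ⟨a, b, v, rfl⟩ := hx
  by_cases hv : v = 1
  · left
    exact ⟨a, b, by rw [hv, sh_one, mul_one]⟩
  · right
    have e1 := th_ne_zero v.ne_zero
    have e2 := th_ne_one (val_ne_one hv)
    have e3 := thsq_ne_one v.ne_zero (val_ne_one hv)
    have e4 := v.ne_zero
    have e5 : th (v : F) - 1 ≠ 0 := sub_ne_zero.2 e2
    have e6 : th (v : F) * (v : F) ^ 2 - 1 ≠ 0 := sub_ne_zero.2 e3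
    obtain ⟨x, hx⟩ : ∃ x : F, a + (th (v : F))⁻¹ * x = x := by
      refine ⟨a * th (v : F) / (th (v : F) - 1), ?_⟩
      field_simp
      ring
    obtain ⟨y, hy⟩ : ∃ y : F, b + (th (v : F) * (v : F) ^ 2)⁻¹ * y + a * th ((th (v : F))⁻¹ * x) = y := by
      refine ⟨(b + a * th ((th (v : F))⁻¹ * x)) * (th (v : F) * (v : F) ^ 2) /
        (th (v : F) * (v : F) ^ 2 - 1), ?_⟩
      generalize th ((th (v : F))⁻¹ * x) = z
      field_simp
      ring
    refine ⟨(su x y)⁻¹, v, hv, ?_⟩
    have : su a b * sh v * su x y = su x y * sh v := by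
      rw [mul_assoc, sh_su, ← mul_assoc, su_mul, hx, hy]
    rw [inv_inv, mul_assoc, this, inv_mul_cancel_left]

theorem card_Fpf : 2 * (2 ^ 29 - 1) * Nat.card {s : S F // Fpf s} ≤ 2 ^ 29 * Nat.card (S F) := by
  have h1 := card_XH (F := F)
  have h2 : Nat.card {s : S F // Fpf s} + Nat.card (XH F) ≤ Nat.card (S F) := by
    rw [← Nat.card_sum]
    apply Nat.card_le_card_of_injective (Sum.elim (fun x => x.1) (fun x => x.1))
    rintro (⟨x, hx⟩ | ⟨x, hx⟩) (⟨y, hy⟩ | ⟨y, hy⟩) h
    · simp only [Sum.elim_inl] at h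
      subst h; rfl
    · simp only [Sum.elim_inl, Sum.elim_inr] at h
      subst h
      obtain ⟨g, v, hv, rfl⟩ := hy
      exfalso
      apply hx g⁻¹
      have : g⁻¹ * (g * sh v * g⁻¹) * g⁻¹⁻¹ = sh v := by group
      rw [this]
      exact sh_mem v
    · simp only [Sum.elim_inl, Sum.elim_inr] at h
      subst h
      obtain ⟨g, v, hv, rfl⟩ := hx
      exfalso
      apply hy g⁻¹
      have : g⁻¹ * (g * sh v * g⁻¹) * g⁻¹⁻¹ = sh v := by group
      rw [this]
      exact sh_mem v
    · simp only [Sum.elim_inr] at h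
      subst h; rfl
  have h3 : 2 * (2 ^ 29 - 1) * (Nat.card {s : S F // Fpf s} + Nat.card (XH F)) ≤
      2 * (2 ^ 29 - 1) * Nat.card (S F) := Nat.mul_le_mul_left _ h2
  norm_num at h1 h3 ⊢
  omega

end Pool.Agent.N58.Sz
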