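import Pool.Agent.N58.Sz.Gam

set_option autoImplicit false
set_option linter.unusedSectionVars false
set_option linter.unusedVariables false

namespace Pool.Agent.N58.Sz

open SemidirectProduct

section general

variable {G : Type} [Group G] [Finite G]

theorem count_le (T : Set (ConjClasses G)) (X : Set G) (M p : ℕ)
    (h : ∀ c ∈ T, M ≤ p * Nat.card {x : G // x ∈ X ∧ ConjClasses.mk x = c}) :
    M * T.ncard ≤ p * X.ncard := by
  classical
  have : Fintype G := Fintype.ofFinite G
  have : Fintype (ConjClasses G) := Fintype.ofFinite _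
  rw [Set.ncard_eq_toFinset_card' T, Set.ncard_eq_toFinset_card' X]
  have h1 : M * T.toFinset.card ≤ ∑ c ∈ T.toFinset,
      p * (X.toFinset.filter (fun x => ConjClasses.mk x = c)).card := by
    rw [mul_comm, ← smul_eq_mul]
    apply Finset.card_nsmul_le_sum
    intro c hc
    refine (h c (Set.mem_toFinset.1 hc)).trans (Nat.mul_le_mul_left _ (le_of_eq ?_))
    rw [Nat.card_eq_fintype_card, Fintype.card_subtype]
    congr 1
    ext x
    simp
  refine h1.trans ?_
  rw [← Finset.mul_sum]
  apply Nat.mul_le_mul_left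
  have h2 : ∑ c ∈ T.toFinset, (X.toFinset.filter (fun x => ConjClasses.mk x = c)).card =
      ∑ c ∈ T.toFinset, ((X.toFinset.filter (fun x => ConjClasses.mk x ∈ T.toFinset)).filter
        (fun x => ConjClasses.mk x = c)).card := by
    refine Finset.sum_congr rfl fun c hc => ?_
    congr 1
    ext x
    simp only [Finset.mem_filter]
    constructor
    · rintro ⟨h3, h4⟩
      exact ⟨⟨h3, by rw [h4]; exact hc⟩, h4⟩
    · rintro ⟨⟨h3, _⟩, h4⟩
      exact ⟨h3, h4⟩
  rw [h2, ← Finset.card_eq_sum_card_fiberwise]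
  · exact Finset.card_le_card (Finset.filter_subset _ _)
  · intro x hx
    exact (Finset.mem_filter.1 hx).2

theorem class_card (a : G) :
    Nat.card G ≤ Nat.card (Subgroup.centralizer {a}) * Nat.card {x : G // ConjClasses.mk x = ConjClasses.mk a} := by
  have h1 : ∀ x : {x : G // ConjClasses.mk x = ConjClasses.mk a}, ∃ t : G, t * a * t⁻¹ = x := by
    rintro ⟨x, hx⟩
    rw [ConjClasses.mk_eq_mk_iff_isConj] at hx
    exact isConj_iff.1 hx.symm
  choose t ht using h1
  have h2 : ∀ g : G, ConjClasses.mk (g * a * g⁻¹) = ConjClasses.mk a := by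
    intro g
    rw [ConjClasses.mk_eq_mk_iff_isConj]
    exact (isConj_iff.2 ⟨g, rfl⟩).symm
  rw [← Nat.card_prod]
  apply Nat.card_le_card_of_injective
    (fun g : G => ((⟨(t ⟨g * a * g⁻¹, h2 g⟩)⁻¹ * g, by
      rw [Subgroup.mem_centralizer_iff]
      intro y hy
      rw [Set.mem_singleton_iff] at hy
      subst hy
      have h3 := ht ⟨g * y * g⁻¹, h2 g⟩
      simp only at h3
      generalize t ⟨g * y * g⁻¹, h2 g⟩ = u at h3
      have h4 : u * y = g * y * g⁻¹ * u := by rw [← h3]; group
      have h5 : y * (u⁻¹ * g) = u⁻¹ * (u * y) * u⁻¹ * g := by group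
      rw [h5, h4]
      group⟩ : Subgroup.centralizer {a}), (⟨g * a * g⁻¹, h2 g⟩ : {x : G // ConjClasses.mk x = ConjClasses.mk a})))
  intro g g' h
  simp only [Prod.mk.injEq, Subtype.mk.injEq] at h
  obtain ⟨h3, h4⟩ := h
  have h5 : (⟨g * a * g⁻¹, h2 g⟩ : {x : G // ConjClasses.mk x = ConjClasses.mk a}) =
      ⟨g' * a * g'⁻¹, h2 g'⟩ := Subtype.ext h4
  rw [h5] at h3
  exact mul_left_cancel h3

end general

variable {F : Type} [Field F] [Q29 F]

theorem ph_BB (σ : Gam F) {s : S F} (h : s ∈ BB F) : ph σ s ∈ BB F := by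
  obtain ⟨a, b, v, rfl⟩ := h
  rw [map_mul, ph_su, ph_sh]
  exact ⟨_, _, _, rfl⟩

theorem ph_inv_apply (σ : Gam F) (s : S F) : ph σ (ph σ⁻¹ s) = s := by
  rw [← MulAut.mul_apply, ← map_mul, mul_inv_cancel, map_one, MulAut.one_apply]

theorem ph_inv_apply' (σ : Gam F) (s : S F) : ph σ⁻¹ (ph σ s) = s := by
  rw [← MulAut.mul_apply, ← map_mul, inv_mul_cancel, map_one, MulAut.one_apply]

theorem ph_Fpf (σ : Gam F) {s : S F} (h : Fpf s) : Fpf (ph σ s) := by
  intro g hg
  apply h (ph σ⁻¹ g)
  have := ph_BB σ⁻¹ hg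
  rw [map_mul, map_mul, ph_inv_apply', map_inv] at this
  exact this

theorem conj_inl (g : GG F) (s : S F) :
    g * inl s * g⁻¹ = inl (g.left * ph g.right s * g.left⁻¹) := by
  conv_lhs => rw [← inl_left_mul_inr_right g]
  have := inl_aut (φ := ph (F := F)) g.right s
  rw [map_mul, map_mul, this, map_inv]
  simp only [mul_inv_rev, map_inv]
  group

/-- classes of fixed point free elements with small centralizers -/
def CF (F : Type) [Field F] [Q29 F] : Set (ConjClasses (GG F)) :=
  {c | ∃ s : S F, Fpf s ∧ (∀ z : GG F, z * inl s = inl s * z → z.right = 1) ∧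
    c = ConjClasses.mk (inl s)}

/-- classes of nonidentity diagonal elements -/
def CH (F : Type) [Field F] [Q29 F] : Set (ConjClasses (GG F)) :=
  {c | ∃ v : Fˣ, v ≠ 1 ∧ c = ConjClasses.mk (inl (sh v))}

theorem card_CF : (CF F).ncard ≤ 9256960 := by
  set X : Set (GG F) := (fun s : S F => (inl s : GG F)) '' {s | Fpf s} with hX
  have hXc : X.ncard = Nat.card {s : S F // Fpf s} := by
    rw [hX, Set.ncard_image_of_injective _ inl_injective]
    rfl
  have h1 : ∀ c ∈ CF F, Nat.card (GG F) ≤ p0 * Nat.card {x : GG F // x ∈ X ∧ ConjClasses.mk x = c} := by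
    rintro c ⟨s, hs, hz, rfl⟩
    have h2 := class_card (inl s : GG F)
    have h3 : Nat.card (Subgroup.centralizer {(inl s : GG F)}) ≤ p0 := by
      refine le_trans ?_ (cent_le hs)
      apply Nat.card_le_card_of_injective (fun z : Subgroup.centralizer {(inl s : GG F)} =>
        (⟨z.1.left, by
          rw [Subgroup.mem_centralizer_iff]
          intro y hy
          rw [Set.mem_singleton_iff] at hy
          subst hy
          have h4 := Subgroup.mem_centralizer_iff.1 z.2 _ rfl
          have h5 := hz z.1 h4.symm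
          have h6 := congrArg SemidirectProduct.left h4
          rw [mul_left, mul_left, left_inl, right_inl, map_one, h5, map_one] at h6
          exact h6⟩ : Subgroup.centralizer {s}))
      intro z z' h
      simp only [Subtype.mk.injEq] at h
      have h4 := hz z.1 (Subgroup.mem_centralizer_iff.1 z.2 _ rfl).symm
      have h5 := hz z'.1 (Subgroup.mem_centralizer_iff.1 z'.2 _ rfl).symm
      exact Subtype.ext (SemidirectProduct.ext h (h4.trans h5.symm))
    refine h2.trans (Nat.mul_le_mul h3 ?_)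
    apply Nat.card_le_card_of_injective (fun x : {x : GG F // ConjClasses.mk x = ConjClasses.mk (inl s)} =>
      (⟨x.1, by
        refine ⟨?_, x.2⟩
        have h4 := x.2
        rw [ConjClasses.mk_eq_mk_iff_isConj] at h4
        obtain ⟨g, hg⟩ := isConj_iff.1 h4.symm
        rw [conj_inl] at hg
        exact ⟨_, (ph_Fpf g.right hs).conj g.left, hg⟩⟩ :
        {x : GG F // x ∈ X ∧ ConjClasses.mk x = ConjClasses.mk (inl s)}))
    intro x x' h
    simp only [Subtype.mk.injEq] at h
    exact Subtype.ext h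
  have h2 := count_le _ _ _ _ h1
  rw [hXc, card_GG] at h2
  have h3 := card_Fpf (F := F)
  have hpos : 0 < Nat.card (S F) := Nat.card_pos
  generalize Nat.card (S F) = n at h2 h3 hpos
  generalize Nat.card {s : S F // Fpf s} = m at h2 h3
  generalize (CF F).ncard = k at h2 ⊢
  have h4 : (2 * (2 ^ 29 - 1)) * (n * 29 * k) ≤ p0 * (2 ^ 29 * n) := by
    calc (2 * (2 ^ 29 - 1)) * (n * 29 * k) ≤ (2 * (2 ^ 29 - 1)) * (p0 * m) :=
          Nat.mul_le_mul_left _ h2
      _ = p0 * (2 * (2 ^ 29 - 1) * m) := by ring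
      _ ≤ _ := Nat.mul_le_mul_left _ h3
  have h5 : n * ((2 * (2 ^ 29 - 1)) * 29 * k) ≤ n * (p0 * 2 ^ 29) := by
    calc n * ((2 * (2 ^ 29 - 1)) * 29 * k) = (2 * (2 ^ 29 - 1)) * (n * 29 * k) := by ring
      _ ≤ _ := h4
      _ = _ := by ring
  have h6 := Nat.le_of_mul_le_mul_left h5 hpos
  norm_num at h6
  omega

/-- action on units -/
def um (σ : Gam F) (v : Fˣ) : Fˣ := Units.map σ.1.toRingHom.toMonoidHom v

theorem um_mul (σ τ : Gam F) (v : Fˣ) : um (σ * τ) v = um σ (um τ v) := rfl
theorem um_inv (σ : Gam F) (v : Fˣ) : um σ v⁻¹ = (um σ v)⁻¹ := map_inv _ _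
theorem um_one (v : Fˣ) : um (1 : Gam F) v = v := rfl

theorem um_ne_one (σ : Gam F) {v : Fˣ} (h : v ≠ 1) : um σ v ≠ 1 := by
  intro h1
  apply h
  have h2 : um σ⁻¹ (um σ v) = um σ⁻¹ 1 := by rw [h1]
  rw [← um_mul, inv_mul_cancel, um_one] at h2
  rw [h2]
  exact map_one _

theorem um_inj {v : Fˣ} (hv : v ≠ 1) {σ τ : Gam F} (h : um σ v = um τ v) : σ = τ := by
  by_contra hne
  apply hv
  have h1 : um (τ⁻¹ * σ) v = v := by rw [um_mul, h, ← um_mul, inv_mul_cancel, um_one]
  refine unit_fix (τ := τ⁻¹ * σ) ?_ h1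
  intro h2
  apply hne
  rw [inv_mul_eq_one] at h2
  exact h2.symm

theorem um_inv_ne {v : Fˣ} (hv : v ≠ 1) {σ τ : Gam F} (h : um σ v = (um τ v)⁻¹) : False := by
  set ρ := τ⁻¹ * σ with hρ
  have h1 : um ρ v = v⁻¹ := by
    rw [hρ, um_mul, h, ← um_inv, ← um_mul, inv_mul_cancel, um_one]
  have h2 : um (ρ * ρ) v = v := by rw [um_mul, h1, um_inv, h1, inv_inv]
  have h3 : ρ * ρ = 1 := by
    by_contra hne
    exact hv (unit_fix hne h2)
  have h4 : ρ ^ 29 = 1 := by
    rw [← card_Gam (F := F)]
    exact pow_card_eq_one'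
  have h5 : ρ = 1 := by
    have h6 : ρ ^ 29 = (ρ * ρ) ^ 14 * ρ := by rw [← sq, ← pow_mul, ← pow_succ]
    rw [h3, one_pow, one_mul, h4] at h6
    exact h6.symm
  rw [h5, um_one] at h1
  exact hv (units_sq_eq_one h1)

theorem card_ne_one : Nat.card {v : Fˣ // v ≠ 1} = 2 ^ 29 - 2 := by
  have : Fintype Fˣ := Fintype.ofFinite _
  classical
  have h2 : Fintype.card Fˣ = 2 ^ 29 - 1 := by rw [← Nat.card_eq_fintype_card, card_units]
  rw [Nat.card_eq_fintype_card]
  have := Fintype.card_subtype_compl (fun v : Fˣ => v = 1)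
  rw [this, h2, Fintype.card_subtype_eq]
  norm_num

theorem sh_inj {v v' : Fˣ} (h : (sh v : S F) = sh v') : v = v' := by
  have h' : su 0 0 * sh v = su (0 : F) 0 * sh v' := by rw [h]
  exact (s1_inj h').2.2

theorem card_CH : (CH F).ncard ≤ 9256395 := by
  set X : Set (GG F) := Set.range (fun v : {v : Fˣ // v ≠ 1} => (inl (sh v.1) : GG F)) with hX
  have hXc : X.ncard = 2 ^ 29 - 2 := by
    rw [hX, ← Nat.card_coe_set_eq, Nat.card_range_of_injective, card_ne_one]
    intro v v' h
    exact Subtype.ext (sh_inj (inl_injective h))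
  have h1 : ∀ c ∈ CH F, 58 ≤ 1 * Nat.card {x : GG F // x ∈ X ∧ ConjClasses.mk x = c} := by
    rintro c ⟨v, hv, rfl⟩
    have e58 : 58 = Nat.card (Gam F × Bool) := by
      rw [Nat.card_prod, card_Gam, Nat.card_eq_fintype_card (α := Bool), Fintype.card_bool]
    rw [one_mul, e58]
    have hc1 : ∀ σ : Gam F, ConjClasses.mk (inl (sh (um σ v)) : GG F) = ConjClasses.mk (inl (sh v)) := by
      intro σ
      rw [ConjClasses.mk_eq_mk_iff_isConj]
      refine (isConj_iff.2 ⟨inr σ, ?_⟩).symm
      rw [conj_inl, left_inr, right_inr, ph_sh]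
      simp only [one_mul, inv_one, mul_one]
      rfl
    have hc2 : ∀ u : Fˣ, ConjClasses.mk (inl (sh u⁻¹) : GG F) = ConjClasses.mk (inl (sh u)) := by
      intro u
      rw [ConjClasses.mk_eq_mk_iff_isConj]
      refine (isConj_iff.2 ⟨inl sw, ?_⟩).symm
      rw [← map_inv, ← map_mul, ← map_mul, sw_sh, mul_assoc, mul_inv_cancel, mul_one]
    apply Nat.card_le_card_of_injective (fun z : Gam F × Bool =>
      (if z.2 then ⟨inl (sh (um z.1 v)), ⟨⟨um z.1 v, um_ne_one _ hv⟩, rfl⟩, hc1 _⟩
        else ⟨inl (sh (um z.1 v)⁻¹), ⟨⟨(um z.1 v)⁻¹, fun h => um_ne_one z.1 hv (inv_eq_one.1 h)⟩, rfl⟩,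
          (hc2 _).trans (hc1 _)⟩ :
        {x : GG F // x ∈ X ∧ ConjClasses.mk x = ConjClasses.mk (inl (sh v))}))
    rintro ⟨σ, b⟩ ⟨τ, b'⟩ h
    have h2 := congrArg Subtype.val h
    cases b <;> cases b' <;> simp only [Bool.false_eq_true, if_true, if_false] at h2
    · have h3 := sh_inj (inl_injective h2)
      rw [inv_inj] at h3
      rw [um_inj hv h3]
    · have h3 := sh_inj (inl_injective h2)
      exact (um_inv_ne hv h3.symm).elim
    · have h3 := sh_inj (inl_injective h2)
      exact (um_inv_ne hv h3).elim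
    · have h3 := sh_inj (inl_injective h2)
      rw [um_inj hv h3]
  have h2 := count_le _ _ _ _ h1
  rw [hXc] at h2
  norm_num at h2
  omega

theorem card_rr : Nat.card ((Bool × Bool × Bool) × Gam F) = 232 := by
  rw [Nat.card_prod, Nat.card_prod, Nat.card_prod, card_Gam, Nat.card_eq_fintype_card (α := Bool),
    Fintype.card_bool]

theorem mk_conj {G : Type} [Group G] (g y : G) : ConjClasses.mk (g * y * g⁻¹) = ConjClasses.mk y := by
  rw [ConjClasses.mk_eq_mk_iff_isConj]
  exact (isConj_iff.2 ⟨g, rfl⟩).symm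

theorem su_bit (a b : Bool) : (inl (su (bit a) (bit b)) : GG F) = rr ((false, a, b), 1) := by
  simp [rr]

theorem class_bound : Nat.card (ConjClasses (GG F)) ≤ 18513588 := by
  obtain ⟨c0, hc0⟩ := utype (F := F)
  set CR : Set (ConjClasses (GG F)) := Set.range (fun r => ConjClasses.mk (rr r)) ∪
    {ConjClasses.mk (inl (su 1 c0))} with hCR
  have h1 : CR.ncard ≤ 233 := by
    refine (Set.ncard_union_le _ _).trans ?_
    rw [Set.ncard_singleton]
    have : (Set.range (fun r : (Bool × Bool × Bool) × Gam F => ConjClasses.mk (rr r))).ncard ≤ 232 := by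
      rw [← card_rr (F := F), ← Set.image_univ]
      exact (Set.ncard_image_le (Set.toFinite _)).trans (le_of_eq (Set.ncard_univ _))
    omega
  have h2 : (Set.univ : Set (ConjClasses (GG F))) ⊆ CR ∪ CH F ∪ CF F := by
    intro c _
    obtain ⟨y, rfl⟩ := ConjClasses.mk_surjective c
    by_cases hy : ∃ z : GG F, y * z = z * y ∧ z.right ≠ 1
    · obtain ⟨z, hz1, hz2⟩ := hy
      obtain ⟨g, r, hr⟩ := rep_of_comm hz1 hz2
      left; left; left
      exact ⟨r, by rw [← mk_conj g y, hr]⟩
    · push Not at hy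
      have h3 : y.right = 1 := hy y rfl
      have h4 : y = inl y.left := by
        conv_lhs => rw [← inl_left_mul_inr_right y, h3, map_one, mul_one]
      generalize y.left = s at h4
      subst h4
      by_cases hs : Fpf s
      · right
        exact ⟨s, hs, fun z hz => hy z hz.symm, rfl⟩
      · left
        have h5 : ∃ g, g * s * g⁻¹ ∈ BB F := by
          by_contra hcon
          push Not at hcon
          exact hs hcon
        obtain ⟨g, hg⟩ := h5
        have key : ∀ k : S F, ConjClasses.mk (inl s : GG F) =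
            ConjClasses.mk (inl (k * (g * s * g⁻¹) * k⁻¹)) := by
          intro k
          have := mk_conj (inl (k * g) : GG F) (inl s)
          rw [← this, ← map_inv, ← map_mul, ← map_mul]
          congr 2
          group
        rcases btype hg with ⟨a, b, h6⟩ | ⟨k, v, hv, h6⟩
        · left
          obtain ⟨k, h7 | h7 | h7 | h7⟩ := hc0 a b
          · left
            refine ⟨((false, false, false), 1), ?_⟩
            show ConjClasses.mk (rr _) = _
            rw [key k, h6, h7, ← su_zero]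
            have := su_bit (F := F) false false
            rw [← this]
            rfl
          · left
            refine ⟨((false, false, true), 1), ?_⟩
            show ConjClasses.mk (rr _) = _
            rw [key k, h6, h7]
            have := su_bit (F := F) false true
            rw [← this]
            rfl
          · left
            refine ⟨((false, true, false), 1), ?_⟩
            show ConjClasses.mk (rr _) = _
            rw [key k, h6, h7]
            have := su_bit (F := F) true false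
            rw [← this]
            rfl
          · right
            rw [key k, h6, h7]
            rfl
        · right
          exact ⟨v, hv, by rw [key k, h6]⟩
  have h3 := Set.ncard_le_ncard h2 (Set.toFinite _)
  rw [Set.ncard_univ] at h3
  have h4 := Set.ncard_union_le (CR ∪ CH F) (CF F)
  have h5 := Set.ncard_union_le CR (CH F)
  have h6 := card_CH (F := F)
  have h7 := card_CF (F := F)
  omega

end Pool.Agent.N58.Sz
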