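import Mathlib

set_option autoImplicit false
set_option linter.unusedSectionVars false
set_option linter.unusedVariables false

namespace Pool.Agent.N58.Sz

/-- A finite field with `2^29` elements. -/
class Q29 (F : Type) [Field F] : Prop where
  card : Nat.card F = 2 ^ 29

variable {F : Type} [Field F] [Q29 F]

theorem finF : Finite F := by
  apply Nat.finite_of_card_ne_zero
  rw [Q29.card]
  norm_num

instance : Finite F := finF

instance charP2 : CharP F 2 := by
  have : Fintype F := Fintype.ofFinite F
  obtain ⟨p, hp⟩ := CharP.exists F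
  have := hp
  obtain ⟨n, hpr, hn⟩ := FiniteField.card F p
  have h1 : Fintype.card F = 2 ^ 29 := by
    rw [← Nat.card_eq_fintype_card, Q29.card]
  rw [h1] at hn
  have h2 : p ∣ 2 ^ 29 := by
    rw [hn]
    exact dvd_pow_self p n.ne_zero
  have h3 : p ∣ 2 := hpr.dvd_of_dvd_pow h2
  have h4 : p = 2 := (Nat.prime_dvd_prime_iff_eq hpr Nat.prime_two).1 h3
  rw [← h4]
  exact hp

theorem two0 : (2 : F) = 0 := CharTwo.two_eq_zero

theorem pow_card (x : F) : x ^ (2 ^ 29) = x := by
  have : Fintype F := Fintype.ofFinite F
  have h1 : Fintype.card F = 2 ^ 29 := by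
    rw [← Nat.card_eq_fintype_card, Q29.card]
  have := FiniteField.pow_card x
  rwa [h1] at this

/-- The field automorphism with square the Frobenius map. -/
def th (x : F) : F := x ^ (2 ^ 15)

theorem th_mul (x y : F) : th (x * y) = th x * th y := mul_pow _ _ _
theorem th_one : th (1 : F) = 1 := one_pow _
theorem th_zero : th (0 : F) = 0 := by
  unfold th
  exact zero_pow (by norm_num)
theorem th_add (x y : F) : th (x + y) = th x + th y := by
  unfold th
  exact add_pow_char_pow x y 2 15
theorem th_inv (x : F) : th (x⁻¹) = (th x)⁻¹ := inv_pow _ _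
theorem th_div (x y : F) : th (x / y) = th x / th y := div_pow _ _ _
theorem th_th (x : F) : th (th x) = x ^ 2 := by
  unfold th
  rw [← pow_mul]
  have : (2:ℕ) ^ 15 * 2 ^ 15 = 2 ^ 29 * 2 := by norm_num
  rw [this, pow_mul, pow_card]
theorem th_pow (x : F) (n : ℕ) : th (x ^ n) = th x ^ n := by
  unfold th
  rw [← pow_mul, ← pow_mul, mul_comm]
theorem th_eq_zero {x : F} : th x = 0 ↔ x = 0 := by
  unfold th
  exact pow_eq_zero_iff (by norm_num)
theorem th_ne_zero {x : F} (h : x ≠ 0) : th x ≠ 0 := fun h' => h (th_eq_zero.1 h')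

theorem add_self (x : F) : x + x = 0 := CharTwo.add_self_eq_zero x
theorem neg_self (x : F) : -x = x := CharTwo.neg_eq x

theorem pow_gcd_eq {x : F} (hx : x ≠ 0) {m n : ℕ} (h1 : x ^ m = 1) (h2 : x ^ n = 1) :
    x ^ (Nat.gcd m n) = 1 := by
  have := orderOf_dvd_of_pow_eq_one h1
  have h3 := orderOf_dvd_of_pow_eq_one h2
  exact orderOf_dvd_iff_pow_eq_one.1 (Nat.dvd_gcd this h3)

theorem pow_sub_one {x : F} (hx : x ≠ 0) : x ^ (2 ^ 29 - 1) = 1 := by
  have h := pow_card x
  have h2 : x ^ (2 ^ 29 - 1) * x = x := by
    rw [← pow_succ]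
    exact h
  exact mul_right_cancel₀ hx (by rw [h2, one_mul])

/-- If `th x = x` then `x` is `0` or `1`. -/
theorem th_fix {x : F} (h : th x = x) : x = 0 ∨ x = 1 := by
  have h1 : x ^ 2 = x := by
    have := th_th x
    rw [h, h] at this
    exact this.symm
  have h2 : x * (x - 1) = 0 := by ring_nf; rw [h1]; ring
  rcases mul_eq_zero.1 h2 with h3 | h3
  · exact Or.inl h3
  · exact Or.inr (sub_eq_zero.1 h3)

/-- The norm-like form of the Suzuki group. -/
def nm (a b : F) : F := a ^ 2 * th a + a * b + th b

theorem nm_eq_zero {a b : F} (h : nm a b = 0) : a = 0 ∧ b = 0 := by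
  unfold nm at h
  by_cases ha : a = 0
  · subst ha
    rw [th_zero] at h
    have : th b = 0 := by simpa using h
    exact ⟨rfl, th_eq_zero.1 this⟩
  · exfalso
    have hta : th a ≠ 0 := th_ne_zero ha
    set c := b / (a * th a) with hc
    have hb : b = c * (a * th a) := by
      rw [hc]; field_simp
    have e1 : c + th c = 1 := by
      have : a ^ 2 * th a * (1 + c + th c) = 0 := by
        have e2 : th b = th c * (th a * a ^ 2) := by
          rw [hb, th_mul, th_mul, th_th]
        rw [e2, hb] at h
        linear_combination h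
      have h3 : 1 + c + th c = 0 := by
        rcases mul_eq_zero.1 this with h4 | h4
        · exfalso
          exact (mul_ne_zero (pow_ne_zero 2 ha) hta) h4
        · exact h4
      have h2 := two0 (F := F)
      linear_combination h3 - h2
    have e3 : th c + c ^ 2 = 1 := by
      have := congrArg th e1
      rw [th_add, th_th, th_one] at this
      exact this
    have e4 : c ^ 2 = c := by linear_combination e3 - e1
    have e5 : c = 0 ∨ c = 1 := by
      have : c * (c - 1) = 0 := by linear_combination e4
      rcases mul_eq_zero.1 this with h4 | h4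
      · exact Or.inl h4
      · exact Or.inr (sub_eq_zero.1 h4)
    rcases e5 with e5 | e5
    · rw [e5, th_zero] at e1
      simp at e1
    · rw [e5, th_one] at e1
      have h2 := two0 (F := F)
      have : (1:F) = 0 := by linear_combination h2 - e1
      exact one_ne_zero this

theorem sq_eq_one {x : F} (h : x ^ 2 = 1) : x = 1 := by
  have h2 := two0 (F := F)
  have : (x - 1) ^ 2 = 0 := by linear_combination h - x * h2 + h2
  have := pow_eq_zero_iff (two_ne_zero) |>.1 this
  exact sub_eq_zero.1 this

/-- every element of `F` is a square. -/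
theorem exists_sq (x : F) : ∃ y : F, y ^ 2 = x := by
  refine ⟨x ^ (2 ^ 28), ?_⟩
  rw [← pow_mul]
  exact pow_card x

theorem th_surj (x : F) : ∃ y : F, th y = x := by
  obtain ⟨y, hy⟩ := exists_sq x
  refine ⟨th y, ?_⟩
  rw [th_th, hy]

theorem th_inj {x y : F} (h : th x = th y) : x = y := by
  have := congrArg th h
  rw [th_th, th_th] at this
  have h2 := two0 (F := F)
  have : (x - y) ^ 2 = 0 := by linear_combination this - (x * y - y ^ 2) * h2
  have := pow_eq_zero_iff (two_ne_zero) |>.1 this
  exact sub_eq_zero.1 this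

end Pool.Agent.N58.Sz
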