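import Pool.Agent.N58.Sz.Syl

set_option autoImplicit false
set_option linter.unusedSectionVars false
set_option linter.unusedVariables false

namespace Pool.Agent.N58.Sz

open SemidirectProduct

variable {F : Type} [Field F] [Q29 F]

variable (F) in
/-- Frobenius automorphism `x ↦ x^2` -/
noncomputable def frb : F ≃+* F := frobeniusEquiv F 2

theorem frb_apply (x : F) : frb F x = x ^ 2 := frobeniusEquiv_def F 2 x

theorem frb_pow (n : ℕ) (x : F) : (frb F ^ n) x = x ^ (2 ^ n) := by
  induction n with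
  | zero => simp
  | succ n ih => rw [pow_succ', RingAut.mul_apply, ih, frb_apply, ← pow_mul, pow_succ]

theorem frb_pow29 : frb F ^ 29 = 1 := by
  refine RingEquiv.ext fun x => ?_
  rw [frb_pow, pow_card]
  rfl

theorem frb_ne_one : frb F ≠ 1 := by
  intro h
  have h1 : ∀ x : F, x = 0 ∨ x = 1 := by
    intro x
    have h2 : frb F x = x := by rw [h]; rfl
    rw [frb_apply] at h2
    have h3 : x * (x - 1) = 0 := by linear_combination h2
    rcases mul_eq_zero.1 h3 with h4 | h4
    · exact Or.inl h4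
    · exact Or.inr (sub_eq_zero.1 h4)
  have h2 : Nat.card F ≤ 2 := by
    have := Nat.card_le_card_of_surjective (fun b : Bool => if b then (1:F) else 0) (by
      intro x
      rcases h1 x with h | h
      · exact ⟨false, by simp [h]⟩
      · exact ⟨true, by simp [h]⟩)
    simpa using this
  rw [Q29.card] at h2
  norm_num at h2

theorem orderOf_frb : orderOf (frb F) = 29 := by
  have : Fact (Nat.Prime 29) := ⟨by norm_num⟩
  exact orderOf_eq_prime frb_pow29 frb_ne_one

variable (F) in
/-- the group generated by the Frobenius automorphism -/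
abbrev Gam := ↥(Subgroup.zpowers (frb F))

theorem card_Gam : Nat.card (Gam F) = 29 := by
  rw [Nat.card_zpowers, orderOf_frb]

instance : Finite (Gam F) := Nat.finite_of_card_ne_zero (by rw [card_Gam]; norm_num)

theorem gam_fix {τ : Gam F} (hτ : τ ≠ 1) {x : F} (h : (τ : F ≃+* F) x = x) : x = 0 ∨ x = 1 := by
  have : Fact (Nat.Prime 29) := ⟨by norm_num⟩
  have h1 : (⟨frb F, Subgroup.mem_zpowers _⟩ : Gam F) ∈ Subgroup.zpowers τ :=
    mem_zpowers_of_prime_card card_Gam hτ
  obtain ⟨k, hk⟩ := Subgroup.mem_zpowers_iff.1 h1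
  have h2 : (τ : F ≃+* F) ∈ MulAction.stabilizer (F ≃+* F) x := h
  have h3 := Subgroup.zpow_mem _ h2 k
  have h4 : ((τ ^ k : Gam F) : F ≃+* F) = frb F := by rw [hk]
  rw [SubgroupClass.coe_zpow] at h4
  rw [h4] at h3
  have h5 : frb F x = x := h3
  rw [frb_apply] at h5
  have h3 : x * (x - 1) = 0 := by linear_combination h5
  rcases mul_eq_zero.1 h3 with h4 | h4
  · exact Or.inl h4
  · exact Or.inr (sub_eq_zero.1 h4)

/-- the action of the Galois group on `S` -/
noncomputable def ph : Gam F →* MulAut (S F) := act.comp (Subgroup.subtype _)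

variable (F) in
/-- the counterexample group -/
abbrev GG := S F ⋊[ph] Gam F

instance : Finite (GG F) := Finite.of_equiv _ SemidirectProduct.equivProd.symm

theorem card_GG : Nat.card (GG F) = Nat.card (S F) * 29 := by
  rw [SemidirectProduct.card, card_Gam]

theorem ph_su (σ : Gam F) (a b : F) : ph σ (su a b) = su (σ.1 a) (σ.1 b) := act_su _ _ _
theorem ph_sh (σ : Gam F) (v : Fˣ) : ph σ (sh v) = sh (Units.map σ.1.toRingHom.toMonoidHom v) :=
  act_sh _ _
theorem ph_sw (σ : Gam F) : ph σ (sw : S F) = sw := act_sw _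

theorem not_dvd_card_S : ¬ 29 ∣ Nat.card (S F) := by
  rw [card_S]
  norm_num

theorem fac_GG : (Nat.card (GG F)).factorization 29 = 1 := by
  apply fac_gen (k := Nat.card (S F)) (by norm_num) Nat.card_pos.ne' not_dvd_card_S
  rw [card_GG, mul_comm]

theorem sylow29 (c : GG F) (hc : c.right ≠ 1) :
    ∃ (g : GG F) (k : ℕ) (τ : Gam F), τ ≠ 1 ∧ g * c ^ k * g⁻¹ = inr τ := by
  have hp : Fact (Nat.Prime 29) := ⟨by norm_num⟩
  set n := Nat.card (S F) with hn
  have h1 : (c ^ n).right ≠ 1 := by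
    intro h
    have h2 : c.right ^ n = 1 := by
      have := map_pow (rightHom : GG F →* Gam F) c n
      rw [← h]
      exact this.symm
    have h3 : orderOf c.right = 29 := by
      apply orderOf_eq_prime _ hc
      rw [← card_Gam (F := F)]
      exact pow_card_eq_one'
    have h4 := orderOf_dvd_of_pow_eq_one h2
    rw [h3] at h4
    exact not_dvd_card_S h4
  have h2 : orderOf (c ^ n) = 29 := by
    apply orderOf_eq_prime
    · rw [← pow_mul, hn, ← card_GG]
      exact pow_card_eq_one'
    · intro h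
      rw [h] at h1
      exact h1 rfl
  let P : Sylow 29 (GG F) := Sylow.ofCard (Subgroup.zpowers (c ^ n)) (by
    rw [fac_GG, Nat.card_zpowers, h2, pow_one])
  let Q : Sylow 29 (GG F) := Sylow.ofCard (MonoidHom.range (inr : Gam F →* GG F)) (by
    rw [fac_GG, pow_one, ← card_Gam (F := F)]
    exact Nat.card_congr (MonoidHom.ofInjective inr_injective).symm.toEquiv)
  obtain ⟨g, hg⟩ := MulAction.exists_smul_eq (GG F) P Q
  have h3 : g * c ^ n * g⁻¹ ∈ (MonoidHom.range (inr : Gam F →* GG F)) := by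
    have h4 : g * c ^ n * g⁻¹ ∈ (g • P : Sylow 29 (GG F)) := by
      have h5 : c ^ n ∈ (P : Subgroup (GG F)) := Subgroup.mem_zpowers _
      have := Subgroup.smul_mem_pointwise_smul (c ^ n) (MulAut.conj g) (P : Subgroup (GG F)) h5
      exact this
    rw [hg] at h4
    exact h4
  obtain ⟨τ, hτ⟩ := h3
  refine ⟨g, n, τ, ?_, hτ.symm⟩
  rintro rfl
  rw [map_one] at hτ
  apply h1
  have : c ^ n = 1 := by
    have := congrArg (fun y => g⁻¹ * y * g) hτ
    simpa [mul_assoc] using this.symm
  rw [this]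
  rfl

/-- embedding of bits -/
def bit (b : Bool) : F := if b then 1 else 0

theorem bit_of {x : F} (h : x = 0 ∨ x = 1) : ∃ b, x = bit b := by
  rcases h with h | h
  · exact ⟨false, by simp [bit, h]⟩
  · exact ⟨true, by simp [bit, h]⟩

theorem bit_map (σ : F ≃+* F) (b : Bool) : σ (bit b) = bit b := by
  cases b <;> simp [bit]

theorem bit_add (b c : Bool) : ∃ d, (bit b + bit c : F) = bit d := by
  cases b <;> cases c
  · exact ⟨false, by simp [bit]⟩
  · exact ⟨true, by simp [bit]⟩
  · exact ⟨true, by simp [bit]⟩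
  · exact ⟨false, by simp [bit, add_self]⟩

theorem bit_mul (b c : Bool) : ∃ d, (bit b * th (bit c) : F) = bit d := by
  cases b <;> cases c
  · exact ⟨false, by simp [bit]⟩
  · exact ⟨false, by simp [bit]⟩
  · exact ⟨false, by simp [bit, th_zero]⟩
  · exact ⟨true, by simp [bit, th_one]⟩

theorem unit_fix {τ : Gam F} (hτ : τ ≠ 1) {v : Fˣ}
    (h : Units.map τ.1.toRingHom.toMonoidHom v = v) : v = 1 := by
  have h1 : (τ : F ≃+* F) (v : F) = v := congrArg Units.val h
  rcases gam_fix hτ h1 with h2 | h2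
  · exact absurd h2 v.ne_zero
  · exact Units.ext h2

theorem fix_form {τ : Gam F} (hτ : τ ≠ 1) {x : S F} (h : ph τ x = x) :
    (∃ a b : Bool, x = su (bit a) (bit b)) ∨
      ∃ a b c d : Bool, x = su (bit a) (bit b) * sw * su (bit c) (bit d) := by
  rcases s_cases x with ⟨a, b, v, rfl⟩ | ⟨a, b, v, c, d, rfl⟩
  · left
    rw [map_mul, ph_su, ph_sh] at h
    obtain ⟨h1, h2, h3⟩ := s1_inj h
    obtain ⟨a', rfl⟩ := bit_of (gam_fix hτ h1)
    obtain ⟨b', rfl⟩ := bit_of (gam_fix hτ h2)
    exact ⟨a', b', by rw [unit_fix hτ h3, sh_one, mul_one]⟩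
  · right
    rw [map_mul, map_mul, map_mul, ph_su, ph_sh, ph_sw, ph_su] at h
    obtain ⟨h1, h2, h3, h4, h5⟩ := s2_inj h
    obtain ⟨a', rfl⟩ := bit_of (gam_fix hτ h1)
    obtain ⟨b', rfl⟩ := bit_of (gam_fix hτ h2)
    obtain ⟨c', rfl⟩ := bit_of (gam_fix hτ h4)
    obtain ⟨d', rfl⟩ := bit_of (gam_fix hτ h5)
    exact ⟨a', b', c', d', by rw [unit_fix hτ h3, sh_one, mul_one]⟩

/-- special representatives -/
noncomputable def rr (r : (Bool × Bool × Bool) × Gam F) : GG F :=
  inl ((if r.1.1 then sw else 1) * su (bit r.1.2.1) (bit r.1.2.2)) * inr r.2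

theorem rep_of_comm {y c : GG F} (h : y * c = c * y) (hc : c.right ≠ 1) :
    ∃ g r, g * y * g⁻¹ = rr r := by
  obtain ⟨g, k, τ, hτ, h1⟩ := sylow29 c hc
  set y' := g * y * g⁻¹ with hy'
  have h2 : y' * inr τ = inr τ * y' := by
    rw [← h1, hy']
    have h3 : y * c ^ k = c ^ k * y := (Commute.pow_right (show Commute y c from h) k)
    calc g * y * g⁻¹ * (g * c ^ k * g⁻¹) = g * (y * c ^ k) * g⁻¹ := by group
      _ = g * (c ^ k * y) * g⁻¹ := by rw [h3]
      _ = _ := by group
  have h4 : ph τ y'.left = y'.left := by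
    have h5 := congrArg SemidirectProduct.left h2
    simp only [mul_left, left_inr, right_inr, map_one, mul_one, one_mul] at h5
    exact h5.symm
  have h5 : y' = inl y'.left * inr y'.right := (inl_left_mul_inr_right y').symm
  generalize y'.left = x at h4 h5
  generalize y'.right = σ at h5
  rcases fix_form hτ h4 with ⟨a, b, h6⟩ | ⟨a, b, c', d, h6⟩
  · refine ⟨g, ((false, a, b), σ), ?_⟩
    rw [← hy', h5, h6]
    simp [rr]
  · obtain ⟨e, he⟩ := bit_add (F := F) c' a
    obtain ⟨f1, hf1⟩ := bit_add (F := F) d b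
    obtain ⟨f2, hf2⟩ := bit_mul (F := F) c' a
    obtain ⟨f3, hf3⟩ := bit_add (F := F) f1 f2
    have e1 : su (bit c') (bit d) * su (bit a) (bit b) = su (F := F) (bit e) (bit f3) := by
      rw [su_mul, he, hf2, hf1, hf3]
    refine ⟨(inl (su (bit a) (bit b)))⁻¹ * g, ((true, e, f3), σ), ?_⟩
    have e2 : (inl (su (bit a) (bit b)))⁻¹ * g * y * ((inl (su (bit a) (bit b)))⁻¹ * g)⁻¹ =
        (inl (su (bit a) (bit b)))⁻¹ * y' * inl (su (F := F) (bit a) (bit b)) := by
      rw [hy']; group
    rw [e2, h5, h6]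
    have e3 : inr σ * inl (su (F := F) (bit a) (bit b)) =
        inl (su (F := F) (bit a) (bit b)) * (inr σ : GG F) := by
      have := inl_aut (φ := ph (F := F)) σ (su (F := F) (bit a) (bit b))
      rw [ph_su, bit_map, bit_map] at this
      nth_rewrite 2 [this]
      rw [mul_assoc _ (inr σ⁻¹), ← map_mul, inv_mul_cancel, map_one, mul_one]
    simp only [rr, if_true]
    rw [← e1]
    simp only [map_mul, mul_assoc, inv_mul_cancel_left]
    rw [e3]

end Pool.Agent.N58.Sz
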