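import Pool.Agent.N58.Sz.Mtx

set_option autoImplicit false
set_option linter.unusedSectionVars false
set_option linter.unusedVariables false

namespace Pool.Agent.N58.Sz

variable {F : Type} [Field F] [Q29 F]

/-- Invertible 4 by 4 matrices. -/
abbrev GL4 (F : Type) [Field F] := (Matrix (Fin 4) (Fin 4) F)ˣ

/-- unipotent elements -/
def gu (a b : F) : GL4 F where
  val := MU a b
  inv := MU a (b + a * th a)
  val_inv := by
    rw [MU_mul, add_self, show b + (b + a * th a) + a * th a = (b + b) + (a * th a + a * th a) by ring,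
      add_self, add_self, add_zero, MU_zero]
  inv_val := by
    rw [MU_mul, add_self, show b + a * th a + b + a * th a = (b + b) + (a * th a + a * th a) by ring,
      add_self, add_self, add_zero, MU_zero]

/-- diagonal elements -/
def gh (v : Fˣ) : GL4 F where
  val := MH (v : F)
  inv := MH ((v⁻¹ : Fˣ) : F)
  val_inv := by rw [MH_mul, ← Units.val_mul, mul_inv_cancel, Units.val_one, MH_one]
  inv_val := by rw [MH_mul, ← Units.val_mul, inv_mul_cancel, Units.val_one, MH_one]

/-- the Weyl element -/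
def gw : GL4 F where
  val := MW
  inv := MW
  val_inv := MW_sq
  inv_val := MW_sq

theorem gu_mul (a b c d : F) : gu a b * gu c d = gu (a + c) (b + d + a * th c) :=
  Units.ext (MU_mul a b c d)
theorem gu_zero : gu (0 : F) 0 = 1 := Units.ext MU_zero
theorem gh_mul (v v' : Fˣ) : gh v * gh v' = gh (v * v') := Units.ext (by
  show MH _ * MH _ = MH _
  rw [MH_mul, Units.val_mul])
theorem gh_one : gh (1 : Fˣ) = 1 := Units.ext MH_one
theorem gw_sq : gw * gw = (1 : GL4 F) := Units.ext MW_sq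
theorem gw_gh (v : Fˣ) : gw * gh v = gh v⁻¹ * gw := Units.ext (by
  show MW * MH _ = MH _ * MW
  rw [MW_MH, Units.val_inv_eq_inv_val])
theorem gu_gh (v : Fˣ) (a b : F) :
    gu a b * gh v = gh v * gu (th (v : F) * a) (th (v : F) * (v : F) ^ 2 * b) :=
  Units.ext (MU_MH v.ne_zero a b)

theorem gh_gu (v : Fˣ) (a b : F) :
    gh v * gu a b = gu ((th (v : F))⁻¹ * a) ((th (v : F) * (v : F) ^ 2)⁻¹ * b) * gh v := by
  rw [gu_gh]
  have h1 := v.ne_zero
  have h2 := th_ne_zero h1
  congr 2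
  · field_simp
  · field_simp

theorem gw_gu_gw {a b : F} (h : ¬ (a = 0 ∧ b = 0)) :
    ∃ (a' b' : F) (v : Fˣ) (c d : F), gw * gu a b * gw = gu a' b' * gh v * gw * gu c d := by
  have hN : nm a b ≠ 0 := nm_pos h
  have hn : th (nm a b) ≠ 0 := th_ne_zero hN
  refine ⟨(a * th a + b) / nm a b,
        (a / nm a b + (a * th a + b) / nm a b * th ((a * th a + b) / nm a b)),
        Units.mk0 (th (nm a b) / nm a b) (div_ne_zero hn hN), b / nm a b, a / nm a b, Units.ext ?_⟩
  exact MW_MU_MW h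

/-- normal forms -/
def IsNF (g : GL4 F) : Prop :=
  (∃ a b v, g = gu a b * gh v) ∨ (∃ a b v c d, g = gu a b * gh v * gw * gu c d)

theorem IsNF.mul_u {g : GL4 F} (h : IsNF g) (c d : F) : IsNF (g * gu c d) := by
  rcases h with ⟨a, b, v, rfl⟩ | ⟨a, b, v, a', b', rfl⟩
  · left
    rw [mul_assoc, gh_gu, ← mul_assoc, gu_mul]
    exact ⟨_, _, _, rfl⟩
  · right
    rw [mul_assoc _ (gu a' b'), gu_mul]
    exact ⟨_, _, _, _, _, rfl⟩

theorem IsNF.mul_h {g : GL4 F} (h : IsNF g) (v' : Fˣ) : IsNF (g * gh v') := by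
  rcases h with ⟨a, b, v, rfl⟩ | ⟨a, b, v, a', b', rfl⟩
  · left
    rw [mul_assoc, gh_mul]
    exact ⟨_, _, _, rfl⟩
  · right
    have e : gu a b * gh v * gw * gu a' b' * gh v' = gu a b * (gh v * gh v'⁻¹) * gw *
        gu (th (v' : F) * a') (th (v' : F) * (v' : F) ^ 2 * b') := by
      have h := gu_gh v' a' b'
      calc gu a b * gh v * gw * gu a' b' * gh v'
          = gu a b * gh v * gw * (gu a' b' * gh v') := by simp only [mul_assoc]
        _ = gu a b * gh v * (gw * gh v') *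
            gu (th (v' : F) * a') (th (v' : F) * (v' : F) ^ 2 * b') := by
            rw [h]; simp only [mul_assoc]
        _ = _ := by rw [gw_gh]; simp only [mul_assoc]
    rw [e, gh_mul]
    exact ⟨_, _, _, _, _, rfl⟩

theorem IsNF.mul_w {g : GL4 F} (h : IsNF g) : IsNF (g * gw) := by
  rcases h with ⟨a, b, v, rfl⟩ | ⟨a, b, v, a', b', rfl⟩
  · right
    refine ⟨a, b, v, 0, 0, ?_⟩
    rw [gu_zero, mul_one]
  · by_cases h0 : a' = 0 ∧ b' = 0
    · left
      rw [h0.1, h0.2, gu_zero, mul_one, mul_assoc, gw_sq, mul_one]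
      exact ⟨_, _, _, rfl⟩
    · right
      obtain ⟨c, d, v', e, f, h1⟩ := gw_gu_gw h0
      have : gu a b * gh v * gw * gu a' b' * gw = gu a b * gh v * (gw * gu a' b' * gw) := by
        simp only [mul_assoc]
      rw [this, h1]
      have : gu a b * gh v * (gu c d * gh v' * gw * gu e f) =
          gu a b * (gh v * gu c d) * gh v' * gw * gu e f := by
        simp only [mul_assoc]
      rw [this, gh_gu, ← mul_assoc, gu_mul, mul_assoc _ (gh v), gh_mul]
      exact ⟨_, _, _, _, _, rfl⟩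

theorem IsNF.mul {g g' : GL4 F} (h : IsNF g) (h' : IsNF g') : IsNF (g * g') := by
  rcases h' with ⟨a, b, v, rfl⟩ | ⟨a, b, v, a', b', rfl⟩
  · rw [← mul_assoc]
    exact (h.mul_u a b).mul_h v
  · rw [← mul_assoc, ← mul_assoc, ← mul_assoc]
    exact (((h.mul_u a b).mul_h v).mul_w).mul_u a' b'

theorem isNF_one : IsNF (1 : GL4 F) := by
  left
  refine ⟨0, 0, 1, ?_⟩
  rw [gu_zero, gh_one, mul_one]

theorem isNF_u (a b : F) : IsNF (gu a b) := by
  have := isNF_one.mul_u a b
  rwa [one_mul] at this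
theorem isNF_h (v : Fˣ) : IsNF (gh v) := by
  have := isNF_one.mul_h v
  rwa [one_mul] at this
theorem isNF_w : IsNF (gw : GL4 F) := by
  have := (isNF_one (F := F)).mul_w
  rwa [one_mul] at this

theorem gu_inv (a b : F) : (gu a b)⁻¹ = gu a (b + a * th a) := by
  rw [inv_eq_iff_mul_eq_one, gu_mul, add_self,
    show b + (b + a * th a) + a * th a = (b + b) + (a * th a + a * th a) by ring,
      add_self, add_self, add_zero, gu_zero]
theorem gh_inv (v : Fˣ) : (gh v)⁻¹ = gh v⁻¹ := by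
  rw [inv_eq_iff_mul_eq_one, gh_mul, mul_inv_cancel, gh_one]
theorem gw_inv : (gw : GL4 F)⁻¹ = gw := by
  rw [inv_eq_iff_mul_eq_one, gw_sq]

theorem IsNF.inv {g : GL4 F} (h : IsNF g) : IsNF g⁻¹ := by
  rcases h with ⟨a, b, v, rfl⟩ | ⟨a, b, v, a', b', rfl⟩
  · rw [mul_inv_rev, gu_inv, gh_inv]
    exact (isNF_h _).mul_u _ _
  · rw [mul_inv_rev, mul_inv_rev, mul_inv_rev, gu_inv, gu_inv, gh_inv, gw_inv]
    exact (isNF_u _ _).mul (isNF_w.mul ((isNF_h _).mul_u _ _))

variable (F) in
/-- The Suzuki group as a subgroup of `GL_4`. -/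
def Sub : Subgroup (GL4 F) where
  carrier := {g | IsNF g}
  mul_mem' := fun h h' => IsNF.mul h h'
  one_mem' := isNF_one
  inv_mem' := fun h => IsNF.inv h

theorem multh_inj {x y : F} (hx : x ≠ 0) (hy : y ≠ 0) (h : x * th x = y * th y) : x = y := by
  have hy' := th_ne_zero hy
  have h1 : (x / y) * th (x / y) = 1 := by
    rw [th_div]
    field_simp
    exact h
  set z := x / y with hz
  have hz0 : z ≠ 0 := div_ne_zero hx hy
  have h2 : th z = z⁻¹ := by
    field_simp
    rw [mul_comm]; exact h1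
  have h3 : z ^ 2 = z := by
    have := congrArg th h2
    rw [th_th, th_inv, h2, inv_inv] at this
    exact this
  have h4 : z = 1 := by
    have : z * z = z * 1 := by rw [mul_one, ← sq]; exact h3
    exact mul_left_cancel₀ hz0 this
  rw [hz] at h4
  field_simp at h4
  exact h4

theorem multh_surj {x : F} (hx : x ≠ 0) : ∃ y : F, y ≠ 0 ∧ y * th y = x := by
  have h' := th_ne_zero hx
  refine ⟨th x / x, div_ne_zero h' hx, ?_⟩
  rw [th_div, th_th]
  field_simp

theorem nf1_inj {a b c d : F} {v v' : Fˣ} (h : gu a b * gh v = gu c d * gh v') :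
    a = c ∧ b = d ∧ v = v' := by
  have h1 : MU a b * MH (v : F) = MU c d * MH (v' : F) := congrArg Units.val h
  have e0 := congrFun (congrFun h1 0) 0
  have e1 := congrFun (congrFun h1 1) 0
  have e2 := congrFun (congrFun h1 2) 0
  simp [MU, MH, Matrix.mul_apply, Fin.sum_univ_four] at e0 e1 e2
  have hv : (v : F) = v' := multh_inj v.ne_zero v'.ne_zero e0
  rw [← hv] at e1 e2
  have hp : (v : F) * th (v : F) ≠ 0 := mul_ne_zero v.ne_zero (th_ne_zero v.ne_zero)
  have ha : a = c := mul_right_cancel₀ hp e1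
  rw [ha] at e2
  have hb : b = d := by
    have := mul_right_cancel₀ hp e2
    linear_combination this
  exact ⟨ha, hb, Units.ext hv⟩

theorem nf2_inj {a b c d a' b' c' d' : F} {v v' : Fˣ}
    (h : gu a b * gh v * gw * gu c d = gu a' b' * gh v' * gw * gu c' d') :
    a = a' ∧ b = b' ∧ v = v' ∧ c = c' ∧ d = d' := by
  have h1 : MU a b * MH (v : F) * MW * MU c d = MU a' b' * MH (v' : F) * MW * MU c' d' :=
    congrArg Units.val h
  have e0 := congrFun (congrFun h1 0) 3
  have e1 := congrFun (congrFun h1 1) 3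
  have e2 := congrFun (congrFun h1 2) 3
  have f1 := congrFun (congrFun h1 0) 2
  have f2 := congrFun (congrFun h1 0) 1
  simp [MU, MH, MW, Matrix.mul_apply, Fin.sum_univ_four] at e0 e1 e2 f1 f2
  have hv : (v : F) = v' := multh_inj v.ne_zero v'.ne_zero e0
  rw [← hv] at e1 e2 f1 f2
  have hp : (v : F) * th (v : F) ≠ 0 := mul_ne_zero v.ne_zero (th_ne_zero v.ne_zero)
  have ht := th_ne_zero v.ne_zero
  have hv0 := v.ne_zero
  have ha : a = a' := mul_right_cancel₀ hp e1
  rw [ha] at e2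
  have hb : b = b' := by
    have := mul_right_cancel₀ hp e2
    linear_combination this
  exact ⟨ha, hb, Units.ext hv, mul_left_cancel₀ hp f1, mul_left_cancel₀ hp f2⟩

theorem nf12 {a b a' b' c' d' : F} {v v' : Fˣ} :
    gu a b * gh v ≠ gu a' b' * gh v' * gw * gu c' d' := by
  intro h
  have h1 : MU a b * MH (v : F) = MU a' b' * MH (v' : F) * MW * MU c' d' :=
    congrArg Units.val h
  have e0 := congrFun (congrFun h1 0) 3
  simp [MU, MH, MW, Matrix.mul_apply, Fin.sum_univ_four] at e0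
  exact (th_ne_zero v'.ne_zero) e0

/-! ### The group -/

variable (F) in
/-- The Suzuki group. -/
abbrev S := ↥(Sub F)

/-- unipotent elements of `S` -/
def su (a b : F) : S F := ⟨gu a b, isNF_u a b⟩
/-- diagonal elements of `S` -/
def sh (v : Fˣ) : S F := ⟨gh v, isNF_h v⟩
/-- the Weyl element of `S` -/
def sw : S F := ⟨gw, isNF_w⟩

theorem su_mul (a b c d : F) : su a b * su c d = su (a + c) (b + d + a * th c) :=
  Subtype.ext (gu_mul a b c d)
theorem su_zero : su (0 : F) 0 = 1 := Subtype.ext gu_zero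
theorem sh_mul (v v' : Fˣ) : sh v * sh v' = sh (v * v') := Subtype.ext (gh_mul v v')
theorem sh_one : sh (1 : Fˣ) = 1 := Subtype.ext gh_one
theorem sw_sq : sw * sw = (1 : S F) := Subtype.ext gw_sq
theorem sw_sh (v : Fˣ) : sw * sh v = sh v⁻¹ * sw := Subtype.ext (gw_gh v)
theorem su_sh (v : Fˣ) (a b : F) :
    su a b * sh v = sh v * su (th (v : F) * a) (th (v : F) * (v : F) ^ 2 * b) :=
  Subtype.ext (gu_gh v a b)
theorem sh_su (v : Fˣ) (a b : F) :
    sh v * su a b = su ((th (v : F))⁻¹ * a) ((th (v : F) * (v : F) ^ 2)⁻¹ * b) * sh v :=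
  Subtype.ext (gh_gu v a b)
theorem su_inv (a b : F) : (su a b)⁻¹ = su a (b + a * th a) := Subtype.ext (gu_inv a b)
theorem sh_inv (v : Fˣ) : (sh v)⁻¹ = sh v⁻¹ := Subtype.ext (gh_inv v)
theorem sw_inv : (sw : S F)⁻¹ = sw := Subtype.ext gw_inv

theorem sw_su_sw {a b : F} (h : ¬ (a = 0 ∧ b = 0)) :
    ∃ (a' b' : F) (v : Fˣ) (c d : F), sw * su a b * sw = su a' b' * sh v * sw * su c d := by
  obtain ⟨a', b', v, c, d, h1⟩ := gw_gu_gw h
  exact ⟨a', b', v, c, d, Subtype.ext h1⟩

theorem s_cases (s : S F) :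
    (∃ a b v, s = su a b * sh v) ∨ (∃ a b v c d, s = su a b * sh v * sw * su c d) := by
  rcases s with ⟨g, ⟨a, b, v, h⟩ | ⟨a, b, v, c, d, h⟩⟩
  · exact Or.inl ⟨a, b, v, Subtype.ext h⟩
  · exact Or.inr ⟨a, b, v, c, d, Subtype.ext h⟩

theorem s1_inj {a b c d : F} {v v' : Fˣ} (h : su a b * sh v = su c d * sh v') :
    a = c ∧ b = d ∧ v = v' := nf1_inj (congrArg Subtype.val h)

theorem s2_inj {a b c d a' b' c' d' : F} {v v' : Fˣ}
    (h : su a b * sh v * sw * su c d = su a' b' * sh v' * sw * su c' d') :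
    a = a' ∧ b = b' ∧ v = v' ∧ c = c' ∧ d = d' := nf2_inj (congrArg Subtype.val h)

theorem s12 {a b a' b' c' d' : F} {v v' : Fˣ}
    (h : su a b * sh v = su a' b' * sh v' * sw * su c' d') : False :=
  nf12 (congrArg Subtype.val h)

/-- The normal form map. -/
def nfMap : (F × F × Fˣ) ⊕ (F × F × Fˣ × F × F) → S F
  | Sum.inl (a, b, v) => su a b * sh v
  | Sum.inr (a, b, v, c, d) => su a b * sh v * sw * su c d

theorem nfMap_bij : Function.Bijective (nfMap (F := F)) := by
  constructor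
  · rintro (⟨a, b, v⟩ | ⟨a, b, v, c, d⟩) (⟨a', b', v'⟩ | ⟨a', b', v', c', d'⟩) h
    · obtain ⟨h1, h2, h3⟩ := s1_inj h
      rw [h1, h2, h3]
    · exact (s12 h).elim
    · exact (s12 h.symm).elim
    · obtain ⟨h1, h2, h3, h4, h5⟩ := s2_inj h
      rw [h1, h2, h3, h4, h5]
  · intro s
    rcases s_cases s with ⟨a, b, v, rfl⟩ | ⟨a, b, v, c, d, rfl⟩
    · exact ⟨Sum.inl (a, b, v), rfl⟩
    · exact ⟨Sum.inr (a, b, v, c, d), rfl⟩

theorem card_units : Nat.card Fˣ = 2 ^ 29 - 1 := by
  rw [Nat.card_units, Q29.card]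

instance : Finite (S F) := Finite.of_surjective _ nfMap_bij.2

theorem card_S : Nat.card (S F) = 2 ^ 58 * (2 ^ 29 - 1) * (2 ^ 58 + 1) := by
  rw [← Nat.card_congr (Equiv.ofBijective _ nfMap_bij), Nat.card_sum]
  simp only [Nat.card_prod, card_units, Q29.card]
  norm_num

/-! ### Field automorphisms -/

theorem map_th (σ : F ≃+* F) (x : F) : σ (th x) = th (σ x) := map_pow σ x _
theorem map_nm (σ : F ≃+* F) (x y : F) : σ (nm x y) = nm (σ x) (σ y) := by
  unfold nm
  rw [map_add, map_add, map_mul, map_mul, map_pow, map_th, map_th]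

/-- Entrywise action on `GL_4`. -/
def gmap (σ : F ≃+* F) : GL4 F →* GL4 F := Units.map (σ.toRingHom.mapMatrix : _ →+* _).toMonoidHom

theorem gmap_val (σ : F ≃+* F) (g : GL4 F) : ((gmap σ g : GL4 F) : Matrix (Fin 4) (Fin 4) F) =
    (g : Matrix (Fin 4) (Fin 4) F).map σ := rfl

theorem gmap_gu (σ : F ≃+* F) (a b : F) : gmap σ (gu a b) = gu (σ a) (σ b) := by
  apply Units.ext
  rw [gmap_val]
  show (MU a b).map σ = MU (σ a) (σ b)
  ext i j
  fin_cases i <;> fin_cases j <;> simp [MU, map_th, map_nm]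

theorem gmap_gh (σ : F ≃+* F) (v : Fˣ) : gmap σ (gh v) = gh (Units.map σ.toRingHom.toMonoidHom v) := by
  apply Units.ext
  rw [gmap_val]
  show (MH (v : F)).map σ = MH (σ v)
  ext i j
  fin_cases i <;> fin_cases j <;> simp [MH, map_th]

theorem gmap_gw (σ : F ≃+* F) : gmap σ gw = gw := by
  apply Units.ext
  rw [gmap_val]
  show (MW).map σ = MW
  ext i j
  fin_cases i <;> fin_cases j <;> simp [MW]

theorem gmap_nf (σ : F ≃+* F) {g : GL4 F} (h : IsNF g) : IsNF (gmap σ g) := by
  rcases h with ⟨a, b, v, rfl⟩ | ⟨a, b, v, c, d, rfl⟩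
  · left
    rw [map_mul, gmap_gu, gmap_gh]
    exact ⟨_, _, _, rfl⟩
  · right
    rw [map_mul, map_mul, map_mul, gmap_gu, gmap_gh, gmap_gw, gmap_gu]
    exact ⟨_, _, _, _, _, rfl⟩

/-- action of a field automorphism on `S` -/
def smap (σ : F ≃+* F) : S F →* S F where
  toFun s := ⟨gmap σ s.1, gmap_nf σ s.2⟩
  map_one' := Subtype.ext (map_one _)
  map_mul' a b := Subtype.ext (map_mul _ _ _)

theorem smap_comp (σ τ : F ≃+* F) (s : S F) : smap σ (smap τ s) = smap (τ.trans σ) s := by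
  apply Subtype.ext
  apply Units.ext
  show (s.1.val.map τ).map σ = _
  rw [Matrix.map_map]
  rfl

theorem smap_refl (s : S F) : smap (RingEquiv.refl F) s = s := by
  apply Subtype.ext
  apply Units.ext
  show s.1.val.map _ = _
  ext i j
  rfl

/-- The action of the automorphism group of the field. -/
def act : (F ≃+* F) →* MulAut (S F) where
  toFun σ :=
    { toFun := smap σ
      invFun := smap σ.symm
      left_inv := fun s => by
        rw [smap_comp, RingEquiv.self_trans_symm, smap_refl]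
      right_inv := fun s => by
        rw [smap_comp, RingEquiv.symm_trans_self, smap_refl]
      map_mul' := map_mul _ }
  map_one' := by
    ext1 s
    exact smap_refl s
  map_mul' σ τ := by
    ext1 s
    exact (smap_comp σ τ s).symm

theorem act_su (σ : F ≃+* F) (a b : F) : act σ (su a b) = su (σ a) (σ b) :=
  Subtype.ext (gmap_gu σ a b)
theorem act_sh (σ : F ≃+* F) (v : Fˣ) : act σ (sh v) = sh (Units.map σ.toRingHom.toMonoidHom v) :=
  Subtype.ext (gmap_gh σ v)
theorem act_sw (σ : F ≃+* F) : act σ (sw : S F) = sw := Subtype.ext (gmap_gw σ)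

end Pool.Agent.N58.Sz
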