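import Pool.Agent.N58.Sz.Cnt
import Pool.Agent.N58.Sz.Aug

set_option autoImplicit false
set_option linter.unusedSectionVars false
set_option linter.unusedVariables false

namespace Pool.Agent.N58.Sz

open SemidirectProduct

variable {F : Type} [Field F] [Q29 F]

variable (F) in
/-- point stabilizer -/
noncomputable def BG : Subgroup (GG F) where
  carrier := {g | g.left ∈ BB F}
  one_mem' := one_mem (BB F)
  mul_mem' := by
    intro g h hg hh
    show (g * h).left ∈ BB F
    rw [mul_left]
    exact mul_mem hg (ph_BB _ hh)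
  inv_mem' := by
    intro g hg
    show (g⁻¹).left ∈ BB F
    rw [inv_left]
    exact ph_BB _ (inv_mem hg)

theorem mem_BG {g : GG F} : g ∈ BG F ↔ g.left ∈ BB F := Iff.rfl

theorem card_BG : Nat.card (BG F) = Nat.card (BB F) * 29 := by
  rw [← card_Gam (F := F), ← Nat.card_prod]
  refine Nat.card_congr
    { toFun := fun g => (⟨g.1.left, g.2⟩, g.1.right)
      invFun := fun z => ⟨⟨z.1.1, z.2⟩, z.1.2⟩
      left_inv := fun g => rfl
      right_inv := fun z => rfl }

theorem index_BG : (BG F).index = 2 ^ 58 + 1 := by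
  have h := Subgroup.card_mul_index (BG F)
  rw [card_BG, card_GG, card_BB, card_S] at h
  have h2 : 0 < 2 ^ 58 * (2 ^ 29 - 1) * 29 := by norm_num
  apply Nat.eq_of_mul_eq_mul_left h2
  rw [h]
  ring

/-- the Weyl element in `GG` -/
noncomputable def wG : GG F := inl sw

theorem wG_not : (wG : GG F) ∉ BG F := by
  rw [mem_BG]
  show (sw : S F) ∉ BB F
  have := not_mem_BB (F := F) (a := 0) (b := 0) (c := 0) (d := 0) (v := 1)
  rwa [su_zero, sh_one, one_mul, one_mul, mul_one] at this

theorem double {x : GG F} (hx : x ∉ BG F) : ∃ b ∈ BG F, ∃ b' ∈ BG F, x = b * wG * b' := by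
  rw [mem_BG] at hx
  have h1 := (inl_left_mul_inr_right x).symm
  rcases s_cases x.left with ⟨a, b, v, h⟩ | ⟨a, b, v, c, d, h⟩
  · rw [h] at hx
    exact absurd ⟨a, b, v, rfl⟩ hx
  · refine ⟨inl (su a b * sh v), ?_, inl (su c d) * inr x.right, ?_, ?_⟩
    · rw [mem_BG, left_inl]
      exact ⟨_, _, _, rfl⟩
    · rw [mem_BG, mul_left, left_inl, left_inr, map_one, mul_one]
      exact su_mem _ _
    · rw [h] at h1
      conv_lhs => rw [h1]
      rw [map_mul, map_mul, wG]
      group

/-- the points -/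
abbrev Om (F : Type) [Field F] [Q29 F] := GG F ⧸ BG F

theorem card_Om : Nat.card (Om F) = 2 ^ 58 + 1 := index_BG

theorem faithful {g : GG F} (h : ∀ y : Om F, g • y = y) : g = 1 := by
  have h0 : ∀ x : GG F, x⁻¹ * g * x ∈ BG F := by
    intro x
    have h1 := h (x : Om F)
    have h2 : ((g * x : GG F) : Om F) = (x : Om F) := h1
    rw [eq_comm, QuotientGroup.eq] at h2
    rwa [← mul_assoc] at h2
  have h1 : g.left ∈ BB F := by
    have := h0 1
    rw [inv_one, one_mul, mul_one] at this
    exact this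
  obtain ⟨a, b, v, h2⟩ := h1
  have h3 : sw * g.left * sw ∈ BB F := by
    have := h0 wG
    rw [mem_BG] at this
    have e : (wG⁻¹ * g * wG : GG F).left = sw * g.left * sw := by
      rw [wG, ← map_inv, sw_inv]
      simp only [mul_left, left_inl, right_inl, mul_right, map_one, one_mul, ph_sw]
      rfl
    rwa [e] at this
  have h4 : a = 0 ∧ b = 0 := by
    by_contra hne
    obtain ⟨a', b', v', c, d, h5⟩ := sw_su_sw hne
    rw [h2] at h3
    have h6 : sw * (su a b * sh v) * sw = su a' b' * sh v' * sw * su c d * sh v⁻¹ := by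
      rw [← h5]
      have : sh v * sw = sw * sh v⁻¹ := (sw_mul_sh' v).symm
      calc sw * (su a b * sh v) * sw = sw * su a b * (sh v * sw) := by group
        _ = _ := by rw [this]; group
    rw [h6] at h3
    have h7 := mul_mem h3 (sh_mem v)
    rw [mul_assoc, sh_mul, inv_mul_cancel, sh_one, mul_one] at h7
    exact not_mem_BB h7
  rw [h4.1, h4.2, su_zero, one_mul] at h2
  have h5 : ∀ c : F, (th (v : F))⁻¹ * (g.right.1 c) = c := by
    intro c
    have h6 := h0 (inl (su c 0) * wG)
    rw [mem_BG] at h6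
    have e : ((inl (su c 0) * wG)⁻¹ * g * (inl (su c 0) * wG) : GG F).left =
        sw * ((su c 0)⁻¹ * (g.left * ph g.right (su c 0))) * sw := by
      rw [wG, ← map_mul, ← map_inv, mul_inv_rev, sw_inv]
      simp only [mul_left, left_inl, right_inl, mul_right, map_one, one_mul, map_mul,
        MulAut.one_apply, ph_sw]
      group
    rw [e, h2, ph_su, map_zero, sh_su, su_inv, ← mul_assoc (su c (0 + c * th c)), su_mul] at h6
    set c1 := c + (th (v : F))⁻¹ * (g.right.1 c) with hc1
    have h7 : c1 = 0 := by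
      by_contra hne
      have hne' : ∀ e : F, ¬ (c1 = 0 ∧ e = 0) := fun e h => hne h.1
      obtain ⟨a', b', v', c', d', h8⟩ := sw_su_sw (hne'
        (0 + c * th c + (th (v : F) * (v : F) ^ 2)⁻¹ * 0 + c * th ((th (v : F))⁻¹ * (g.right.1 c))))
      have h9 : ∀ e, sw * (su c1 e * sh v) * sw = sw * su c1 e * sw * sh v⁻¹ := by
        intro e
        have : sh v * sw = sw * sh v⁻¹ := (sw_mul_sh' v).symm
        calc sw * (su c1 e * sh v) * sw = sw * su c1 e * (sh v * sw) := by group
          _ = _ := by rw [this]; group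
      rw [h9, h8] at h6
      have h7 := mul_mem h6 (sh_mem v)
      rw [mul_assoc, sh_mul, inv_mul_cancel, sh_one, mul_one] at h7
      exact not_mem_BB h7
    have h8 := add_self c
    rw [hc1] at h7
    linear_combination h7 - h8
  have h6 : v = 1 := by
    have := h5 1
    rw [map_one, mul_one, inv_eq_one] at this
    apply Units.ext
    apply th_inj
    rw [this, Units.val_one, th_one]
  have h7 : g.right = 1 := by
    apply Subtype.ext
    refine RingEquiv.ext fun c => ?_
    have := h5 c
    rw [h6, Units.val_one, th_one, inv_one, one_mul] at this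
    exact this
  rw [h6, sh_one] at h2
  exact SemidirectProduct.ext h2 h7

theorem Om_cases (x : Om F) (hx : x ≠ ((1 : GG F) : Om F)) :
    ∃ b ∈ BG F, x = b • ((wG : GG F) : Om F) := by
  obtain ⟨u, rfl⟩ := QuotientGroup.mk_surjective x
  have hu : u ∉ BG F := by
    intro h
    apply hx
    rw [eq_comm, QuotientGroup.eq, inv_one, one_mul]
    exact h
  obtain ⟨b, hb, b', hb', rfl⟩ := double hu
  refine ⟨b, hb, ?_⟩
  show ((b * wG * b' : GG F) : Om F) = ((b * wG : GG F) : Om F)
  rw [QuotientGroup.eq]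
  have : (b * wG * b')⁻¹ * (b * wG) = b'⁻¹ := by group
  rw [this]
  exact inv_mem hb'

theorem stab_one {b : GG F} (hb : b ∈ BG F) : b • ((1 : GG F) : Om F) = ((1 : GG F) : Om F) := by
  show ((b * 1 : GG F) : Om F) = ((1 : GG F) : Om F)
  rw [eq_comm, QuotientGroup.eq, inv_one, one_mul, mul_one]
  exact hb

theorem ker_trivial (g : GG F)
    (h : ∀ (V : Type) [AddCommGroup V] [Module ℂ V] [FiniteDimensional ℂ V]
      (ρ : Representation ℂ (GG F) V), ρ.IsIrreducible → ¬ p0 ∣ Module.finrank ℂ V →
      ρ.character g = ρ.character 1) : g = 1 := by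
  have : Finite (Om F) := Nat.finite_of_card_ne_zero (by rw [card_Om]; norm_num)
  have : Fintype (Om F) := Fintype.ofFinite _
  have : Nonempty (Om F) := ⟨((1 : GG F) : Om F)⟩
  have hirr : (aug (GG F) (Om F)).IsIrreducible := by
    apply aug_irred (GG F) (Om F) ((1 : GG F) : Om F)
    · intro x
      obtain ⟨u, rfl⟩ := QuotientGroup.mk_surjective x
      refine ⟨u, ?_⟩
      show ((u * 1 : GG F) : Om F) = _
      rw [mul_one]
    · intro x y hx hy
      obtain ⟨b, hb, rfl⟩ := Om_cases x hx
      obtain ⟨c, hc, rfl⟩ := Om_cases y hy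
      refine ⟨c * b⁻¹, stab_one (mul_mem hc (inv_mem hb)), ?_⟩
      rw [smul_smul, inv_mul_cancel_right]
    · show ((wG : GG F) : Om F) ≠ ((1 : GG F) : Om F)
      intro h
      rw [eq_comm, QuotientGroup.eq, inv_one, one_mul] at h
      exact wG_not h
  have hcard : Fintype.card (Om F) = 2 ^ 58 + 1 := by
    rw [← Nat.card_eq_fintype_card, card_Om]
  have hdim : Module.finrank ℂ (LinearMap.ker (sumf (Om F))) = 2 ^ 58 := by
    have := finrank_aug (Om F)
    rw [hcard] at this
    omega
  have h1 := h _ (aug (GG F) (Om F)) hirr (by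
    rw [hdim]
    decide)
  rw [aug_char, aug_char] at h1
  have h2 : Nat.card {x : Om F // g • x = x} = Nat.card {x : Om F // (1 : GG F) • x = x} := by
    have := sub_left_inj.1 h1
    exact_mod_cast this
  have h3 : Nat.card {x : Om F // (1 : GG F) • x = x} = Nat.card (Om F) := by
    refine Nat.card_congr
      { toFun := fun x => x.1
        invFun := fun x => ⟨x, one_smul _ _⟩
        left_inv := fun x => rfl
        right_inv := fun x => rfl }
  rw [h3] at h2
  apply faithful
  intro y
  have h4 : Function.Bijective (Subtype.val : {x : Om F // g • x = x} → Om F) :=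
    (Nat.bijective_iff_injective_and_card _).2 ⟨Subtype.val_injective, h2⟩
  obtain ⟨z, hz⟩ := h4.2 y
  rw [← hz]
  exact z.2

/-- a nontrivial normal subgroup has order divisible by the number of points -/
theorem normal_dvd (N : Subgroup (GG F)) [hN : N.Normal] (hne : N ≠ ⊥) :
    2 ^ 58 + 1 ∣ Nat.card N := by
  have h1 : ∃ n ∈ N, n ∉ BG F := by
    by_contra hcon
    push Not at hcon
    apply hne
    rw [eq_bot_iff]
    intro g hg
    rw [Subgroup.mem_bot]
    apply faithful
    intro y
    obtain ⟨u, rfl⟩ := QuotientGroup.mk_surjective y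
    show ((g * u : GG F) : Om F) = (u : Om F)
    rw [eq_comm, QuotientGroup.eq, ← mul_assoc]
    apply hcon
    have := hN.conj_mem g hg u⁻¹
    rwa [inv_inv] at this
  obtain ⟨n, hn, hnB⟩ := h1
  obtain ⟨b, hb, b', hb', hbb⟩ := double hnB
  have h2 : ∀ x : Om F, ∃ m : N, m • ((1 : GG F) : Om F) = x := by
    intro x
    by_cases hx : x = ((1 : GG F) : Om F)
    · exact ⟨1, by rw [one_smul, hx]⟩
    · obtain ⟨c, hc, rfl⟩ := Om_cases x hx
      -- w = b⁻¹ n b'⁻¹
      have hw : (wG : GG F) = b⁻¹ * n * b'⁻¹ := by rw [hbb]; group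
      refine ⟨⟨(c * b⁻¹) * n * (c * b⁻¹)⁻¹, hN.conj_mem n hn _⟩, ?_⟩
      show (((c * b⁻¹) * n * (c * b⁻¹)⁻¹ * 1 : GG F) : Om F) = ((c * wG : GG F) : Om F)
      rw [QuotientGroup.eq, hw]
      have : (c * b⁻¹ * n * (c * b⁻¹)⁻¹ * 1)⁻¹ * (c * (b⁻¹ * n * b'⁻¹)) = c * b⁻¹ * b'⁻¹ := by group
      rw [this]
      exact mul_mem (mul_mem hc (inv_mem hb)) (inv_mem hb')
  have h3 := MulAction.index_stabilizer N ((1 : GG F) : Om F)
  have h4 : MulAction.orbit N ((1 : GG F) : Om F) = Set.univ := by
    ext x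
    simp only [Set.mem_univ, iff_true]
    exact h2 x
  rw [h4, Set.ncard_univ, card_Om] at h3
  rw [← h3]
  exact Subgroup.index_dvd_card _

theorem nilp_bot (N : Subgroup (GG F)) [hN : N.Normal] (hnil : Group.IsNilpotent N) : N = ⊥ := by
  by_contra hne
  have h1 := normal_dvd N hne
  have h5p : Fact (Nat.Prime 5) := ⟨by norm_num⟩
  have h5 : 5 ∣ Nat.card N := dvd_trans (by norm_num) h1
  let P : Sylow 5 N := default
  have hPn : (P : Subgroup N).Normal := inferInstance
  have hPc : (P : Subgroup N).Characteristic := P.characteristic_of_normal hPn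
  have hPb : (P : Subgroup N) ≠ ⊥ := P.ne_bot_of_dvd_card h5
  have hM : ((P : Subgroup N).map N.subtype).Normal := inferInstance
  have hMb : ((P : Subgroup N).map N.subtype) ≠ ⊥ := by
    intro h
    apply hPb
    rwa [Subgroup.map_eq_bot_iff_of_injective _ N.subtype_injective] at h
  have h2 := normal_dvd _ hMb
  rw [Subgroup.card_map_of_injective N.subtype_injective] at h2
  obtain ⟨k, hk⟩ := IsPGroup.iff_card.1 P.isPGroup'
  rw [hk] at h2
  have h3 : p0 ∣ 5 ^ k := dvd_trans ⟨5 * m0, by norm_num⟩ h2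
  have h4 := prime_p0.dvd_of_dvd_pow h3
  exact absurd h4 (by decide)

end Pool.Agent.N58.Sz
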