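import Pool.Agent.N58.Sz.Fld

set_option autoImplicit false
set_option linter.unusedSectionVars false
set_option linter.unusedVariables false

namespace Pool.Agent.N58.Sz

variable {F : Type} [Field F] [Q29 F]

/-- Lower unitriangular matrices of the Suzuki group. -/
def MU (a b : F) : Matrix (Fin 4) (Fin 4) F :=
  !![1, 0, 0, 0;
     a, 1, 0, 0;
     a * th a + b, th a, 1, 0;
     nm a b, b, a, 1]

/-- Diagonal matrices of the Suzuki group. -/
def MH (v : F) : Matrix (Fin 4) (Fin 4) F :=
  !![v * th v, 0, 0, 0;
     0, v, 0, 0;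
     0, 0, v⁻¹, 0;
     0, 0, 0, (v * th v)⁻¹]

/-- The antidiagonal matrix. -/
def MW : Matrix (Fin 4) (Fin 4) F :=
  !![0, 0, 0, 1;
     0, 0, 1, 0;
     0, 1, 0, 0;
     1, 0, 0, 0]

theorem MU_mul (a b c d : F) : MU a b * MU c d = MU (a + c) (b + d + a * th c) := by
  have h2 := two0 (F := F)
  ext i j
  fin_cases i <;> fin_cases j <;>
    simp [MU, nm, Matrix.mul_apply, Fin.sum_univ_four, th_add, th_mul, th_th] 
  all_goals try ring
  · linear_combination (-(a * th c)) * h2
  · rw [← sub_eq_zero]
    ring_nf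
    simp [h2]

theorem MU_zero : MU (0 : F) 0 = 1 := by
  ext i j
  fin_cases i <;> fin_cases j <;> simp [MU, nm, th_zero]

theorem MH_one : MH (1 : F) = 1 := by
  ext i j
  fin_cases i <;> fin_cases j <;> simp [MH, th_one]

theorem MH_mul (v v' : F) : MH v * MH v' = MH (v * v') := by
  ext i j
  fin_cases i <;> fin_cases j <;>
    simp [MH, Matrix.mul_apply, Fin.sum_univ_four, th_mul, mul_comm, mul_left_comm, mul_assoc]

theorem MW_sq : MW * MW = (1 : Matrix (Fin 4) (Fin 4) F) := by
  ext i j
  fin_cases i <;> fin_cases j <;> simp [MW, Matrix.mul_apply, Fin.sum_univ_four]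

theorem MW_MH (v : F) : MW * MH v = MH v⁻¹ * MW := by
  ext i j
  fin_cases i <;> fin_cases j <;>
    simp [MW, MH, Matrix.mul_apply, Fin.sum_univ_four, th_inv, mul_comm]

/-- `U(a,b) H(v) = H(v) U(θ(v) a, θ(v) v² b)`. -/
theorem MU_MH {v : F} (hv : v ≠ 0) (a b : F) :
    MU a b * MH v = MH v * MU (th v * a) (th v * v ^ 2 * b) := by
  have ht := th_ne_zero hv
  ext i j
  fin_cases i <;> fin_cases j <;>
    simp [MU, MH, nm, Matrix.mul_apply, Fin.sum_univ_four, th_mul, th_th, th_pow] <;>
    field_simp

theorem nm_pos {a b : F} (h : ¬ (a = 0 ∧ b = 0)) : nm a b ≠ 0 := fun h' => h (nm_eq_zero h')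

theorem th_nm (a b : F) : th (nm a b) = (th a) ^ 2 * a ^ 2 + th a * th b + b ^ 2 := by
  unfold nm
  rw [th_add, th_add, th_mul, th_mul, th_pow, th_th, th_th]

theorem nm_def (a b : F) : nm a b = a ^ 2 * th a + a * b + th b := rfl

theorem MW_MU_MW {a b : F} (h : ¬ (a = 0 ∧ b = 0)) :
    MW * MU a b * MW =
      MU ((a * th a + b) / nm a b)
        (a / nm a b + (a * th a + b) / nm a b * th ((a * th a + b) / nm a b)) *
      MH (th (nm a b) / nm a b) * MW * MU (b / nm a b) (a / nm a b) := by
  have h2 := two0 (F := F)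
  have hN : nm a b ≠ 0 := nm_pos h
  have hn : th (nm a b) ≠ 0 := th_ne_zero hN
  have e1 : th ((a * th a + b) / nm a b) = (th a * a ^ 2 + th b) / th (nm a b) := by
    rw [th_div, th_add, th_mul, th_th]
  have e1' : th ((th a * a ^ 2 + th b) / th (nm a b)) = (a ^ 2 * th a ^ 2 + b ^ 2) / (nm a b) ^ 2 := by
    rw [th_div, th_add, th_mul, th_th, th_th, th_th, th_pow]
  have e2 : th (th (nm a b) / nm a b) = (nm a b) ^ 2 / th (nm a b) := by
    rw [th_div, th_th]
  have e3 : th (b / nm a b) = th b / th (nm a b) := th_div _ _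
  have e4 : th (a / nm a b) = th a / th (nm a b) := th_div _ _
  have hNe : nm a b = a ^ 2 * th a + a * b + th b := rfl
  have hne := th_nm a b
  have e5 : nm ((a * th a + b) / nm a b)
        (a / nm a b + (a * th a + b) / nm a b * th ((a * th a + b) / nm a b)) = 1 / nm a b := by
    rw [nm_def ((a * th a + b) / nm a b), th_add, th_mul, e1, e1', e4]
    generalize hA : nm a b = N at *
    generalize hB : th N = n at *
    generalize th a = c at *
    generalize th b = d at *
    clear e1 e1' e2 e3 e4
    field_simp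
    subst hNe
    rw [← sub_eq_zero]
    subst hne
    have h4 : (4 : F) = 0 := by linear_combination 2 * h2
    have h6 : (6 : F) = 0 := by linear_combination 3 * h2
    ring_nf
    simp [h2, h4, h6]
  have e6 : nm (b / nm a b) (a / nm a b) = 1 / nm a b := by
    rw [nm_def (b / nm a b), e3, e4]
    generalize hA : nm a b = N at *
    generalize hB : th N = n at *
    generalize th a = c at *
    generalize th b = d at *
    clear e1 e1' e2 e3 e4 e5
    field_simp
    subst hNe
    rw [← sub_eq_zero]
    subst hne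
    ring_nf
    simp [h2]
  have f1 : MW * MU a b * MW = !![1, a, b, nm a b; 0, 1, th a, a * th a + b; 0, 0, 1, a; 0, 0, 0, 1] := by
    ext i j
    fin_cases i <;> fin_cases j <;> simp [MW, MU, Matrix.mul_apply, Fin.sum_univ_four]
  have f2 : MH (th (nm a b) / nm a b) * MW * MU (b / nm a b) (a / nm a b) =
      !![1, a, b, nm a b; 
         (b / nm a b * (th b / th (nm a b)) + a / nm a b) * (th (nm a b) / nm a b),
           th b / nm a b, th (nm a b) / nm a b, 0;
         b / th (nm a b), nm a b / th (nm a b), 0, 0;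
         1 / nm a b, 0, 0, 0] := by
    ext i j
    fin_cases i <;> fin_cases j <;> simp [MW, MH, MU, e3, e4, e6, e2, Matrix.mul_apply, Fin.sum_univ_four]
    all_goals (try field_simp)
  have f3 : ∀ x y v z t : F, MU x y * MH v * MW * MU z t = MU x y * (MH v * MW * MU z t) := by
    intro x y v z t
    simp only [mul_assoc]
  have f4 : MU ((a * th a + b) / nm a b)
        (a / nm a b + (a * th a + b) / nm a b * th ((a * th a + b) / nm a b)) =
      !![1, 0, 0, 0;
         (a * th a + b) / nm a b, 1, 0, 0;
         a / nm a b, (th a * a ^ 2 + th b) / th (nm a b), 1, 0;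
         1 / nm a b, (a / nm a b + (a * th a + b) / nm a b * ((th a * a ^ 2 + th b) / th (nm a b))),
           (a * th a + b) / nm a b, 1] := by
    unfold MU
    rw [e5, e1]
    have : (a * th a + b) / nm a b * ((th a * a ^ 2 + th b) / th (nm a b)) + (a / nm a b +
      (a * th a + b) / nm a b * ((th a * a ^ 2 + th b) / th (nm a b))) = a / nm a b := by
      linear_combination ((a * th a + b) / nm a b * ((th a * a ^ 2 + th b) / th (nm a b))) * h2
    rw [this]
  rw [f1, f3, f2, f4]
  clear e1 e1' e2 e3 e4 e5 e6 f1 f2 f3 f4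
  have h4 : (4 : F) = 0 := by linear_combination 2 * h2
  have h6 : (6 : F) = 0 := by linear_combination 3 * h2
  have h8 : (8 : F) = 0 := by linear_combination 4 * h2
  have h10 : (10 : F) = 0 := by linear_combination 5 * h2
  have h14 : (14 : F) = 0 := by linear_combination 7 * h2
  ext i j
  fin_cases i <;> fin_cases j <;> simp [Matrix.mul_apply, Fin.sum_univ_four]
  all_goals
    generalize hA : nm a b = N at *
    generalize hB : th N = n at *
    generalize th a = c at *
    generalize th b = d at *
    field_simp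
    try subst hNe
    try rw [← sub_eq_zero]
    try subst hne
    try ring_nf
    try simp [h2, h4, h6, h8, h10, h14]

end Pool.Agent.N58.Sz
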