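import Pool.Agent.N58.Sz.Cls2

set_option autoImplicit false
set_option linter.unusedSectionVars false
set_option linter.unusedVariables false

namespace Pool.Agent.N58.Sz

variable {F : Type} [Field F] [Q29 F]

/-- the prime `2^29 + 2^15 + 1` -/
abbrev p0 : ℕ := 536903681
/-- the prime `(2^29 - 2^15 + 1) / 5` -/
abbrev m0 : ℕ := 107367629

theorem prime_p0 : Nat.Prime p0 := by
  apply lucas_primality _ (7 : ZMod 536903681)
  · norm_num only
    reduce_mod_char
  · intro q hq hd
    have h0 : (536903681 - 1 : ℕ) = 2 ^ 15 * 5 * 29 * 113 := by norm_num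
    rw [h0] at hd
    have h1 : q = 2 ∨ q = 5 ∨ q = 29 ∨ q = 113 := by
      rcases (Nat.Prime.dvd_mul hq).1 hd with hd | hd
      · rcases (Nat.Prime.dvd_mul hq).1 hd with hd | hd
        · rcases (Nat.Prime.dvd_mul hq).1 hd with hd | hd
          · left
            exact (Nat.prime_dvd_prime_iff_eq hq Nat.prime_two).1 (hq.dvd_of_dvd_pow hd)
          · right; left
            exact (Nat.prime_dvd_prime_iff_eq hq (by norm_num)).1 hd
        · right; right; left
          exact (Nat.prime_dvd_prime_iff_eq hq (by norm_num)).1 hd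
      · right; right; right
        exact (Nat.prime_dvd_prime_iff_eq hq (by norm_num)).1 hd
    rcases h1 with rfl | rfl | rfl | rfl
    · norm_num only
      reduce_mod_char
      decide
    · norm_num only
      reduce_mod_char
      decide
    · norm_num only
      reduce_mod_char
      decide
    · norm_num only
      reduce_mod_char
      decide

theorem prime_m0 : Nat.Prime m0 := by norm_num

theorem fact_q : 2 ^ 58 + 1 = 5 * m0 * p0 := by norm_num

/-- the number theory behind the Sylow argument. -/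
theorem arith {d e n : ℕ} (hd : d ∣ 5 * m0) (he : e ∣ p0 - 1)
    (h : d * e * n = 2 ^ 58 * (2 ^ 29 - 1) * (5 * m0)) (hn : n ≡ 1 [MOD p0]) : d = 1 := by
  have hp := prime_p0
  have h1 : d * e ≡ 4 [MOD p0] := by
    have h2 : d * e * n ≡ d * e * 1 [MOD p0] := Nat.ModEq.mul_left _ hn
    rw [h, mul_one] at h2
    have h3 : 2 ^ 58 * (2 ^ 29 - 1) * (5 * m0) ≡ 4 [MOD p0] := by
      unfold Nat.ModEq
      norm_num
    exact h2.symm.trans h3
  have he1 : e ≤ p0 - 1 := Nat.le_of_dvd (by norm_num) he
  have hdd : d = 1 ∨ d = 5 ∨ d = m0 ∨ d = 5 * m0 := by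
    have h5 : Nat.Prime 5 := by norm_num
    obtain ⟨a, b, ha, hb, rfl⟩ := (Nat.dvd_mul).1 hd
    rcases (Nat.dvd_prime h5).1 ha with rfl | rfl <;>
      rcases (Nat.dvd_prime prime_m0).1 hb with rfl | rfl <;> simp
  have key : ∀ {D E : ℕ}, D * E ≡ 4 [MOD p0] → Nat.Coprime p0 D → E < p0 → D * e ≡ 4 [MOD p0] →
      e = E := by
    intro D E h1 h2 h3 h4
    have h5 : D * e ≡ D * E [MOD p0] := h4.trans h1.symm
    have h6 : e ≡ E [MOD p0] := Nat.ModEq.cancel_left_of_coprime h2 h5
    have h7 : e % p0 = E % p0 := h6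
    rwa [Nat.mod_eq_of_lt (by omega), Nat.mod_eq_of_lt h3] at h7
  rcases hdd with rfl | rfl | rfl | rfl
  · rfl
  · exfalso
    have := key (D := 5) (E := 107380737) (by unfold Nat.ModEq; norm_num) (by norm_num)
      (by norm_num) h1
    rw [this] at he
    norm_num at he
  · exfalso
    have := key (D := m0) (E := 163850) (by unfold Nat.ModEq; norm_num) (by norm_num)
      (by norm_num) h1
    rw [this] at he
    norm_num at he
  · exfalso
    have := key (D := 5 * m0) (E := 32770) (by unfold Nat.ModEq; norm_num) (by norm_num)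
      (by norm_num) h1
    rw [this] at h
    have h8 : 32770 * n = 2 ^ 58 * (2 ^ 29 - 1) := by
      have h9 : 5 * m0 * (32770 * n) = 5 * m0 * (2 ^ 58 * (2 ^ 29 - 1)) := by
        rw [← mul_assoc, h]; ring
      exact Nat.eq_of_mul_eq_mul_left (by norm_num) h9
    have h10 : 32770 ∣ 2 ^ 58 * (2 ^ 29 - 1) := ⟨n, h8.symm⟩
    norm_num at h10

/-- `x` of order `p0` is not conjugate into the Borel subgroup -/
theorem fpf_of_order {x : S F} (hx : orderOf x = p0) : Fpf x := by
  intro g hg
  have h1 : orderOf (g * x * g⁻¹) = p0 := by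
    rw [← hx]
    exact (MulAut.conj g).orderOf_eq x
  have h2 : p0 ∣ Nat.card (BB F) := by
    rw [← h1]
    have := orderOf_dvd_natCard (⟨g * x * g⁻¹, hg⟩ : BB F)
    rwa [← Subgroup.orderOf_coe] at this
  rw [card_BB] at h2
  exact absurd h2 (by decide)

theorem fac_gen {p k n : ℕ} (hp : p.Prime) (hk : k ≠ 0) (h : ¬ p ∣ k) (hn : n = p * k) :
    n.factorization p = 1 := by
  rw [hn, Nat.factorization_mul hp.ne_zero hk, Finsupp.add_apply, hp.factorization,
    Finsupp.single_eq_same, Nat.factorization_eq_zero_of_not_dvd h]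

theorem fac_S : (Nat.card (S F)).factorization p0 = 1 := by
  apply fac_gen (k := 2 ^ 58 * (2 ^ 29 - 1) * (5 * m0)) prime_p0 (by decide) (by decide)
  rw [card_S]
  norm_num

theorem cent_order {x : S F} (hx : orderOf x = p0) :
    Nat.card (Subgroup.centralizer {x}) = p0 := by
  have hfact : Fact (Nat.Prime p0) := ⟨prime_p0⟩
  have hfpf := fpf_of_order hx
  have hC := card_cent_dvd hfpf
  set C := Subgroup.centralizer {x} with hCdef
  set P := Subgroup.zpowers x with hP
  have hcP : Nat.card P = p0 := by rw [hP, Nat.card_zpowers, hx]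
  have hPC : P ≤ C := by
    rw [hP, Subgroup.zpowers_le, hCdef, Subgroup.mem_centralizer_iff]
    rintro h rfl
    rfl
  have hp1 : p0 ∣ Nat.card C := by
    rw [← hcP]
    exact Subgroup.card_dvd_of_le hPC
  obtain ⟨d, hd⟩ := hp1
  have hd2 : d ∣ 5 * m0 := by
    rw [hd, fact_q, mul_comm (5 * m0)] at hC
    exact Nat.dvd_of_mul_dvd_mul_left (by norm_num) hC
  have hCP : Subgroup.centralizer (P : Set (S F)) = C := by
    rw [hP, hCdef]
    ext y
    simp only [Subgroup.mem_centralizer_iff, SetLike.mem_coe, Set.mem_singleton_iff, forall_eq,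
      Subgroup.mem_zpowers_iff]
    constructor
    · intro h
      exact h x ⟨1, zpow_one x⟩
    · rintro h _ ⟨k, rfl⟩
      exact (show Commute x y from h).zpow_left k
  -- Sylow
  have hfac : Nat.card P = p0 ^ (Nat.card (S F)).factorization p0 := by
    rw [fac_S, pow_one, hcP]
  let Q : Sylow p0 (S F) := Sylow.ofCard P hfac
  have hQ : (Q : Subgroup (S F)) = P := rfl
  have hn1 := card_sylow_modEq_one p0 (S F)
  have hn2 := Sylow.card_eq_index_normalizer Q
  rw [hn2] at hn1
  have hQ' : (↑Q : Set (S F)) = (P : Set (S F)) := rfl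
  rw [hQ'] at hn1
  set N := Subgroup.normalizer (P : Set (S F)) with hN
  have hCN : C ≤ N := by
    rw [← hCP]
    exact Subgroup.centralizer_le_normalizer _
  have he : C.relIndex N ∣ p0 - 1 := by
    have key := Subgroup.card_dvd_of_injective _ (QuotientGroup.kerLift_injective P.normalizerMonoidHom)
    rw [Subgroup.normalizerMonoidHom_ker, ← Subgroup.index, ← Subgroup.relIndex, hCP] at key
    have hcyc : IsCyclic P := by rw [hP]; infer_instance
    rw [IsCyclic.card_mulAut, hcP, Nat.totient_prime prime_p0] at key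
    exact key
  have h1 : Nat.card C * C.relIndex N * N.index = Nat.card (S F) := by
    rw [mul_assoc, Subgroup.relIndex_mul_index hCN, Subgroup.card_mul_index]
  have h2 : d * C.relIndex N * N.index = 2 ^ 58 * (2 ^ 29 - 1) * (5 * m0) := by
    rw [hd, card_S, fact_q] at h1
    have : p0 * (d * C.relIndex N * N.index) = p0 * (2 ^ 58 * (2 ^ 29 - 1) * (5 * m0)) := by
      calc _ = p0 * d * C.relIndex N * N.index := by ring
        _ = _ := by rw [h1]; ring
    exact Nat.eq_of_mul_eq_mul_left (by norm_num) this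
  have h3 := arith hd2 he h2 hn1
  rw [hd, h3, mul_one]

/-- centralizers of fixed point free elements have order at most `p0`. -/
theorem cent_le {s : S F} (hs : Fpf s) : Nat.card (Subgroup.centralizer {s}) ≤ p0 := by
  have hC := card_cent_dvd hs
  by_cases hd : p0 ∣ Nat.card (Subgroup.centralizer {s})
  · have hfact : Fact (Nat.Prime p0) := ⟨prime_p0⟩
    obtain ⟨x, hx⟩ := exists_prime_orderOf_dvd_card' p0 hd
    have hx' : orderOf (x : S F) = p0 := by rw [← hx]; exact Subgroup.orderOf_coe x
    have h1 := cent_order hx'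
    have h2 : s ∈ Subgroup.centralizer {(x : S F)} := by
      rw [Subgroup.mem_centralizer_iff]
      rintro h rfl
      exact (Subgroup.mem_centralizer_iff.1 x.2 s rfl).symm
    have h3 : s ≠ 1 := by
      rintro rfl
      exact hs.not_mem (BB F).one_mem
    have h4 : orderOf s ∣ p0 := by
      rw [← h1]
      have := orderOf_dvd_natCard (⟨s, h2⟩ : Subgroup.centralizer {(x : S F)})
      rwa [← Subgroup.orderOf_coe] at this
    have h5 : orderOf s = p0 := by
      rcases (Nat.dvd_prime prime_p0).1 h4 with h | h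
      · exact absurd (orderOf_eq_one_iff.1 h) h3
      · exact h
    exact (cent_order h5).le
  · have h1 : Nat.Coprime (Nat.card (Subgroup.centralizer {s})) p0 :=
      ((Nat.Prime.coprime_iff_not_dvd prime_p0).2 hd).symm
    rw [fact_q] at hC
    have h2 := h1.dvd_of_dvd_mul_right hC
    have h3 := Nat.le_of_dvd (by norm_num) h2
    exact h3.trans (by norm_num)

end Pool.Agent.N58.Sz
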